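import Pool.Agent.McT.P.Dense
import Pool.Agent.McT.AbsDiff
import Pool.Agent.McT.W.Crit

/-! The theorem for finite factors which are not McDuff. -/

set_option autoImplicit false

namespace Pool.McT

open Filter Topology

variable {A B D : Type*} [CStarAlgebra A] [CStarAlgebra B] [CStarAlgebra D]
  {τA : A →ₗ[ℂ] ℂ} {τB : B →ₗ[ℂ] ℂ} {τD : D →ₗ[ℂ] ℂ} {iA : A →⋆ₐ[ℂ] D} {iB : B →⋆ₐ[ℂ] D}

private theorem NM_mono_MainP {E : Type*} [CStarAlgebra E] {τ : E →ₗ[ℂ] ℂ} (hτ : IsTr τ)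
    {F : Finset E} {κ κ' : ℝ} (h : NM τ F κ) (hκ : κ ≤ κ') : NM τ F κ' := by
  intro w hw
  refine (h w hw).trans (mul_le_mul_of_nonneg_right hκ ?_)
  exact Finset.sum_nonneg fun u _ => N_nonneg hτ _

/-- `exists_NM` for both factors (`κ` the larger constant), `absdiff` with `J` such that
`68 * 2^(-J) ≤ δ`, `η = 2^(-J)` (`4 (η + 16 η² / η) = 68 η`), `C = 2 * 520 κ J / η`. -/
theorem prod_factors (T : Tens τA τB τD iA iB) (hd : Dense2 τD iA iB) (hA : Fac τA)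
    (hB : Fac τB) (sA : Sep τA) (sB : Sep τB) (mA : ¬ McDuff τA) (mB : ¬ McDuff τB) {δ : ℝ}
    (hδ : 0 < δ) :
    ∃ (FA : Finset A) (FB : Finset B) (C : ℝ), ∀ (f g : D) (x : A) (y : B), ‖x‖ ≤ 1 →
      ‖y‖ ≤ 1 → ‖τD ((f * g - g * f) * (iA x * iB y))‖ ≤ δ * (N τD f + N τD g)
        + C * (SS τD iA iB FA FB f + SS τD iA iB FA FB g) := by
  obtain ⟨FA, κA, hκA, hNA⟩ := exists_NM hA sA mA
  obtain ⟨FB, κB, hκB, hNB⟩ := exists_NM hB sB mB
  have hκ : 0 ≤ max κA κB := hκA.trans (le_max_left _ _)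
  obtain ⟨n, hn⟩ := exists_pow_lt_of_lt_one (show (0 : ℝ) < δ / 68 by positivity)
    (show (1 / 2 : ℝ) < 1 by norm_num)
  set J : ℕ := max n 3 with hJ
  have hJ3 : 3 ≤ J := le_max_right _ _
  set η : ℝ := (1 / 2 : ℝ) ^ J with hη
  have hη0 : 0 < η := by positivity
  have hηδ : 68 * η ≤ δ := by
    have h1 : η ≤ (1 / 2 : ℝ) ^ n :=
      pow_le_pow_of_le_one (by norm_num) (by norm_num) (le_max_left _ _)
    linarith
  have h4 : (1 / 4 : ℝ) ^ J = η * η := by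
    rw [hη, ← mul_pow]
    norm_num
  have hAD := absdiff hA.tr hκ (NM_mono_MainP hA.tr hNA (le_max_left κA κB)) hJ3
  have hBD := absdiff hB.tr hκ (NM_mono_MainP hB.tr hNB (le_max_right κA κB)) hJ3
  refine ⟨FA, FB, 2 * (520 * max κA κB * J / η), fun f g x y hx hy => ?_⟩
  have h5 := prod_bound T hd hA.faithful hB.faithful (by positivity) (by positivity) hAD hBD hx hy
    hη0 f g
  refine h5.trans (add_le_add (mul_le_mul_of_nonneg_right ?_
    (add_nonneg (N_nonneg T.trD f) (N_nonneg T.trD g))) le_rfl)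
  rw [h4]
  have h6 : 16 * (η * η) / η = 16 * η := by
    field_simp
  rw [h6]
  linarith

private theorem SS_tendsto_MainP (T : Tens τA τB τD iA iB) {f : ℕ → D} (hf : CentralSeq τD f)
    (FA : Finset A) (FB : Finset B) :
    Tendsto (fun n => SS τD iA iB FA FB (f n)) atTop (𝓝 0) := by
  have h1 : ∀ u : D, Tendsto (fun n => N τD (cm (f n) u) + N τD (cm (star (f n)) u)) atTop
      (𝓝 0) := by
    intro u
    have h2 := (hf.2 u).add (hf.2 (star u))
    rw [add_zero] at h2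
    refine h2.congr fun n => ?_
    rw [N_cm_star T.trD]
  have h3 := (tendsto_finsetSum FA fun u _ => h1 (iA u)).add
    (tendsto_finsetSum FB fun u _ => h1 (iB u))
  rw [Finset.sum_const_zero, Finset.sum_const_zero, add_zero] at h3
  exact h3

private theorem N_bdd_MainP (T : Tens τA τB τD iA iB) {f : ℕ → D} (hf : CentralSeq τD f) :
    ∃ K : ℝ, ∀ n, N τD (f n) ≤ K := by
  obtain ⟨C, hC⟩ := hf.1
  refine ⟨C ^ 2 * N τD 1, fun n => ?_⟩
  have h1 := N_mul_le_left T.trD (f n) 1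
  rw [mul_one] at h1
  refine h1.trans (mul_le_mul_of_nonneg_right ?_ (N_nonneg T.trD 1))
  exact pow_le_pow_left₀ (norm_nonneg _) (hC n) 2

/-- The same for central sequences: `SS` tends to `0`, `N` is bounded. -/
theorem prod_seq (T : Tens τA τB τD iA iB) (hd : Dense2 τD iA iB) (hA : Fac τA)
    (hB : Fac τB) (sA : Sep τA) (sB : Sep τB) (mA : ¬ McDuff τA) (mB : ¬ McDuff τB)
    {f g : ℕ → D} (hf : CentralSeq τD f) (hg : CentralSeq τD g) (x : ℕ → A) (y : ℕ → B)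
    (hx : ∀ n, ‖x n‖ ≤ 1) (hy : ∀ n, ‖y n‖ ≤ 1) :
    Tendsto (fun n => τD ((f n * g n - g n * f n) * (iA (x n) * iB (y n)))) atTop (𝓝 0) := by
  obtain ⟨K, hK⟩ := N_bdd_MainP T hf
  obtain ⟨L, hL⟩ := N_bdd_MainP T hg
  have hK0 : 0 ≤ K := (N_nonneg T.trD (f 0)).trans (hK 0)
  have hL0 : 0 ≤ L := (N_nonneg T.trD (g 0)).trans (hL 0)
  rw [Metric.tendsto_atTop]
  intro ε hε
  have hδ : 0 < ε / (2 * (K + L + 1)) := by positivity
  obtain ⟨FA, FB, C, hC⟩ := prod_factors T hd hA hB sA sB mA mB hδ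
  have h1 : Tendsto (fun n => C * (SS τD iA iB FA FB (f n) + SS τD iA iB FA FB (g n))) atTop
      (𝓝 0) := by
    have h2 := ((SS_tendsto_MainP T hf FA FB).add (SS_tendsto_MainP T hg FA FB)).const_mul C
    rwa [add_zero, mul_zero] at h2
  obtain ⟨n₀, hn₀⟩ := (Metric.tendsto_atTop.1 h1) (ε / 2) (half_pos hε)
  refine ⟨n₀, fun n hn => ?_⟩
  have h3 := hn₀ n hn
  rw [Real.dist_eq, sub_zero] at h3
  have h4 := (le_abs_self _).trans_lt h3
  rw [dist_zero_right]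
  refine (hC (f n) (g n) (x n) (y n) (hx n) (hy n)).trans_lt ?_
  have h5 : ε / (2 * (K + L + 1)) * (N τD (f n) + N τD (g n)) ≤ ε / 2 := by
    calc ε / (2 * (K + L + 1)) * (N τD (f n) + N τD (g n)) ≤
        ε / (2 * (K + L + 1)) * (K + L + 1) := by
          apply mul_le_mul_of_nonneg_left _ hδ.le
          linarith [hK n, hL n]
      _ = ε / 2 := by
          field_simp
  linarith

end Pool.McT
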