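import Pool.Agent.McT.P.DenseZ
import Pool.Agent.McT.P.MainP

/-! The theorem for finite factors which are not McDuff, with sandwich elements. -/

set_option autoImplicit false

namespace Pool.McT

open Filter Topology

variable {A B D : Type*} [CStarAlgebra A] [CStarAlgebra B] [CStarAlgebra D]
  {τA : A →ₗ[ℂ] ℂ} {τB : B →ₗ[ℂ] ℂ} {τD : D →ₗ[ℂ] ℂ} {iA : A →⋆ₐ[ℂ] D} {iB : B →⋆ₐ[ℂ] D}

theorem NM_mono_MainZ {E : Type*} [CStarAlgebra E] {τ : E →ₗ[ℂ] ℂ} (hτ : IsTr τ)
    {F : Finset E} {κ κ' : ℝ} (h : NM τ F κ) (hκ : κ ≤ κ') : NM τ F κ' := by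
  intro w hw
  refine (h w hw).trans (mul_le_mul_of_nonneg_right hκ ?_)
  exact Finset.sum_nonneg fun u _ => N_nonneg hτ _

/-- As `prod_factors`, with `sand_bound`. -/
theorem sand_factors (T : Tens τA τB τD iA iB) (hd : Dense2 τD iA iB) (hA : Fac τA)
    (hB : Fac τB) (sA : Sep τA) (sB : Sep τB) (mA : ¬ McDuff τA) (mB : ¬ McDuff τB) {δ : ℝ}
    (hδ : 0 < δ) :
    ∃ (FA : Finset A) (FB : Finset B) (C : ℝ), 0 ≤ C ∧ ∀ (f g z : D), Sand iA iB z →
      Sand iB iA z → ‖τD ((f * g - g * f) * z)‖ ≤ δ * (N τD f + N τD g)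
        + C * (SS τD iA iB FA FB f + SS τD iA iB FA FB g) := by
  obtain ⟨FA, κA, hκA, hNA⟩ := exists_NM hA sA mA
  obtain ⟨FB, κB, hκB, hNB⟩ := exists_NM hB sB mB
  have hκ : 0 ≤ max κA κB := hκA.trans (le_max_left _ _)
  obtain ⟨n, hn⟩ := exists_pow_lt_of_lt_one (show (0 : ℝ) < δ / 68 by positivity)
    (show (1 / 2 : ℝ) < 1 by norm_num)
  set J : ℕ := max n 3 with hJ
  have hJ3 : 3 ≤ J := le_max_right _ _
  set η : ℝ := (1 / 2 : ℝ) ^ J with hη
  have hη0 : 0 < η := by positivity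
  have hηδ : 68 * η ≤ δ := by
    have h1 : η ≤ (1 / 2 : ℝ) ^ n :=
      pow_le_pow_of_le_one (by norm_num) (by norm_num) (le_max_left _ _)
    linarith
  have h4 : (1 / 4 : ℝ) ^ J = η * η := by
    rw [hη, ← mul_pow]
    norm_num
  have hAD := absdiff hA.tr hκ (NM_mono_MainZ hA.tr hNA (le_max_left κA κB)) hJ3
  have hBD := absdiff hB.tr hκ (NM_mono_MainZ hB.tr hNB (le_max_right κA κB)) hJ3
  refine ⟨FA, FB, 2 * (520 * max κA κB * J / η), by positivity, fun f g z hz hz' => ?_⟩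
  have h5 := sand_bound T hd hA.faithful hB.faithful (by positivity) (by positivity) hAD hBD
    hz hz' hη0 f g
  refine h5.trans (add_le_add (mul_le_mul_of_nonneg_right ?_
    (add_nonneg (N_nonneg T.trD f) (N_nonneg T.trD g))) le_rfl)
  rw [h4]
  have h6 : 16 * (η * η) / η = 16 * η := by
    field_simp
  rw [h6]
  linarith

/-- A combination of orthogonal projections with coefficients of modulus at most `1`. -/
private theorem norm_sum_MainZ {E : Type*} [CStarAlgebra E] {M : ℕ} (q : Fin M → E)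
    (hq : ∀ i, IsPr (q i)) (hqo : ∀ i j, i ≠ j → q i * q j = 0) (c : Fin M → ℂ)
    (hc : ∀ i, ‖c i‖ ≤ 1) : ‖∑ i, c i • q i‖ ≤ 1 := by
  let _ := CStarAlgebra.spectralOrder E
  have _ := CStarAlgebra.spectralOrderedRing E
  set s := ∑ i, c i • q i with hs
  have h1 : star s * s = ∑ i, ((‖c i‖ ^ 2 : ℝ) : ℂ) • q i := by
    rw [hs, star_sum, Finset.sum_mul]
    refine Finset.sum_congr rfl fun i _ => ?_
    rw [Finset.mul_sum, Finset.sum_eq_single i]
    · rw [star_smul, (hq i).1, smul_mul_smul_comm, (hq i).2]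
      have h2 : star (c i) * c i = ((Complex.normSq (c i) : ℝ) : ℂ) :=
        (Complex.normSq_eq_conj_mul_self).symm
      rw [h2, Complex.normSq_eq_norm_sq]
    · intro j _ hji
      rw [star_smul, (hq i).1, smul_mul_smul_comm, hqo i j (Ne.symm hji), smul_zero]
    · intro h
      exact absurd (Finset.mem_univ i) h
  set Q := ∑ i, q i with hQ
  have hQ1 : star Q = Q := by
    rw [hQ, star_sum]
    exact Finset.sum_congr rfl fun i _ => (hq i).1
  have hQ2 : Q * Q = Q := by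
    rw [hQ, Finset.sum_mul]
    refine Finset.sum_congr rfl fun i _ => ?_
    rw [Finset.mul_sum, Finset.sum_eq_single i]
    · exact (hq i).2
    · intro j _ hji
      exact hqo i j (Ne.symm hji)
    · intro h
      exact absurd (Finset.mem_univ i) h
  have h2 : star s * s ≤ 1 := by
    rw [← sub_nonneg]
    have e1 : star (1 - Q) * (1 - Q) = 1 - Q := by
      rw [star_sub, star_one, hQ1, sub_mul, one_mul, mul_sub, mul_one, hQ2, sub_self, sub_zero]
    have e2 : ∀ i, star (((Real.sqrt (1 - ‖c i‖ ^ 2) : ℝ) : ℂ) • q i) *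
        (((Real.sqrt (1 - ‖c i‖ ^ 2) : ℝ) : ℂ) • q i) = q i - ((‖c i‖ ^ 2 : ℝ) : ℂ) • q i := by
      intro i
      have h3 : 0 ≤ 1 - ‖c i‖ ^ 2 := by
        have := pow_le_one₀ (norm_nonneg (c i)) (hc i) (n := 2)
        linarith
      rw [star_smul, (hq i).1, smul_mul_smul_comm, (hq i).2]
      have h4 : star ((Real.sqrt (1 - ‖c i‖ ^ 2) : ℝ) : ℂ) *
          ((Real.sqrt (1 - ‖c i‖ ^ 2) : ℝ) : ℂ) = 1 - ((‖c i‖ ^ 2 : ℝ) : ℂ) := by
        have h5 : star ((Real.sqrt (1 - ‖c i‖ ^ 2) : ℝ) : ℂ) =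
          ((Real.sqrt (1 - ‖c i‖ ^ 2) : ℝ) : ℂ) := Complex.conj_ofReal _
        rw [h5, ← Complex.ofReal_mul, Real.mul_self_sqrt h3, Complex.ofReal_sub,
          Complex.ofReal_one]
      rw [h4, sub_smul, one_smul]
    have e3 : 1 - star s * s = star (1 - Q) * (1 - Q) +
        ∑ i, star (((Real.sqrt (1 - ‖c i‖ ^ 2) : ℝ) : ℂ) • q i) *
          (((Real.sqrt (1 - ‖c i‖ ^ 2) : ℝ) : ℂ) • q i) := by
      rw [h1, e1, Finset.sum_congr rfl fun i _ => e2 i, Finset.sum_sub_distrib, ← hQ]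
      abel
    rw [e3]
    exact add_nonneg (star_mul_self_nonneg _)
      (Finset.sum_nonneg fun i _ => star_mul_self_nonneg _)
  have h3 : ‖star s * s‖ ≤ 1 :=
    (CStarAlgebra.norm_le_one_iff_of_nonneg _ (star_mul_self_nonneg s)).2 h2
  rw [CStarRing.norm_star_mul_self] at h3
  nlinarith [norm_nonneg s]

private theorem norm_three_MainZ {E : Type*} [CStarAlgebra E] {a b c : E} (ha : ‖a‖ ≤ 1)
    (hb : ‖b‖ ≤ 1) (hc : ‖c‖ ≤ 1) : ‖a * b * c‖ ≤ 1 := by
  have h1 : ‖a * b‖ ≤ 1 :=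
    (norm_mul_le a b).trans (mul_le_one₀ ha (norm_nonneg b) hb)
  exact (norm_mul_le _ c).trans (mul_le_one₀ h1 (norm_nonneg c) hc)

/-- Elements of the set: `(x ⊗ y) (∑ c_ml q_m ⊗ p_l) (x' ⊗ y')` with contractions
`x, x', y, y'`, orthogonal projections `q_m`, `p_l` and `|c_ml| ≤ 1`. Row `iB (y p_l)`,
`X_l = x (∑_m c_ml q_m) x'`, column `iB (p_l y')`; `‖∑ y p_l y*‖ ≤ 1`. -/
theorem sand_of_diag (T : Tens τA τB τD iA iB) {M L : ℕ} (q : Fin M → A) (p : Fin L → B)
    (hq : ∀ i, IsPr (q i)) (hp : ∀ i, IsPr (p i)) (hqo : ∀ i j, i ≠ j → q i * q j = 0)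
    (hpo : ∀ i j, i ≠ j → p i * p j = 0) (c : Fin M → Fin L → ℂ) (hc : ∀ i j, ‖c i j‖ ≤ 1)
    {x x' : A} {y y' : B} (hx : ‖x‖ ≤ 1) (hx' : ‖x'‖ ≤ 1) (hy : ‖y‖ ≤ 1) (hy' : ‖y'‖ ≤ 1) :
    Sand iA iB ((iA x * iB y) * (∑ i, ∑ j, c i j • (iA (q i) * iB (p j))) *
      (iA x' * iB y')) := by
  have hP : ‖∑ l, p l‖ ≤ 1 := by
    have h1 := norm_sum_MainZ p hp hpo (fun _ => 1) (fun _ => by simp)
    simpa only [one_smul] using h1
  refine ⟨L, fun l => x * (∑ m, c m l • q m) * x', fun l => y * p l, fun l => p l * y', ?_, ?_,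
    ?_, ?_⟩
  · intro l
    exact norm_three_MainZ hx (norm_sum_MainZ q hq hqo (fun m => c m l) (fun m => hc m l)) hx'
  · have e : ∑ l, y * p l * star (y * p l) = y * (∑ l, p l) * star y := by
      rw [Finset.mul_sum, Finset.sum_mul]
      refine Finset.sum_congr rfl fun l _ => ?_
      rw [star_mul, (hp l).1, mul_assoc, ← mul_assoc (p l), (hp l).2, mul_assoc]
    rw [e]
    exact norm_three_MainZ hy hP (by rwa [norm_star])
  · have e : ∑ l, star (p l * y') * (p l * y') = star y' * (∑ l, p l) * y' := by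
      rw [Finset.mul_sum, Finset.sum_mul]
      refine Finset.sum_congr rfl fun l _ => ?_
      rw [star_mul, (hp l).1, mul_assoc, ← mul_assoc (p l), (hp l).2, mul_assoc]
    rw [e]
    exact norm_three_MainZ (by rwa [norm_star]) hP hy'
  · have key : ∀ (S : A) (r : B), (iA x * iB y) * (iA S * iB r) * (iA x' * iB y') =
        iB y * (iA (x * S * x') * iB r) * iB y' := by
      intro S r
      rw [map_mul, map_mul]
      calc (iA x * iB y) * (iA S * iB r) * (iA x' * iB y')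
          = (iB y * iA x) * (iA S * iB r) * (iA x' * iB y') := by rw [T.comm x y]
        _ = iB y * iA x * iA S * (iB r * iA x') * iB y' := by simp only [mul_assoc]
        _ = iB y * iA x * iA S * (iA x' * iB r) * iB y' := by rw [T.comm x' r]
        _ = iB y * (iA x * iA S * iA x' * iB r) * iB y' := by simp only [mul_assoc]
    rw [Finset.sum_comm, Finset.mul_sum, Finset.sum_mul]
    refine Finset.sum_congr rfl fun l _ => ?_
    have h1 : ∑ i, c i l • (iA (q i) * iB (p l)) = iA (∑ m, c m l • q m) * iB (p l) := by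
      rw [map_sum, Finset.sum_mul]
      refine Finset.sum_congr rfl fun i _ => ?_
      rw [map_smul, smul_mul_assoc]
    rw [h1, key]
    have h2 : iB (y * p l) * iA (x * (∑ m, c m l • q m) * x') * iB (p l * y') =
        iB y * (iA (x * (∑ m, c m l • q m) * x') * (iB (p l) * iB (p l))) * iB y' := by
      rw [map_mul iB y, map_mul iB (p l) y']
      calc iB y * iB (p l) * iA (x * (∑ m, c m l • q m) * x') * (iB (p l) * iB y')
          = iB y * (iB (p l) * iA (x * (∑ m, c m l • q m) * x')) * (iB (p l) * iB y') := by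
            simp only [mul_assoc]
        _ = iB y * (iA (x * (∑ m, c m l • q m) * x') * iB (p l)) * (iB (p l) * iB y') := by
            rw [T.comm]
        _ = _ := by simp only [mul_assoc]
    rw [h2, ← map_mul iB (p l), (hp l).2]

theorem SS_tendsto_MainZ (T : Tens τA τB τD iA iB) {f : ℕ → D} (hf : CentralSeq τD f)
    (FA : Finset A) (FB : Finset B) :
    Tendsto (fun n => SS τD iA iB FA FB (f n)) atTop (𝓝 0) := by
  have h1 : ∀ u : D, Tendsto (fun n => N τD (cm (f n) u) + N τD (cm (star (f n)) u)) atTop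
      (𝓝 0) := by
    intro u
    have h2 := (hf.2 u).add (hf.2 (star u))
    rw [add_zero] at h2
    refine h2.congr fun n => ?_
    rw [N_cm_star T.trD]
  have h3 := (tendsto_finsetSum FA fun u _ => h1 (iA u)).add
    (tendsto_finsetSum FB fun u _ => h1 (iB u))
  rw [Finset.sum_const_zero, Finset.sum_const_zero, add_zero] at h3
  exact h3

theorem N_bdd_MainZ (T : Tens τA τB τD iA iB) {f : ℕ → D} (hf : CentralSeq τD f) :
    ∃ K : ℝ, ∀ n, N τD (f n) ≤ K := by
  obtain ⟨C, hC⟩ := hf.1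
  refine ⟨C ^ 2 * N τD 1, fun n => ?_⟩
  have h1 := N_mul_le_left T.trD (f n) 1
  rw [mul_one] at h1
  refine h1.trans (mul_le_mul_of_nonneg_right ?_ (N_nonneg T.trD 1))
  exact pow_le_pow_left₀ (norm_nonneg _) (hC n) 2

theorem N_cm_le_MainZ {τ : D →ₗ[ℂ] ℂ} (hτ : IsTr τ) (x y : D) :
    N τ (cm x y) ≤ 4 * ‖y‖ ^ 2 * N τ x := by
  have e : cm x y = x * y + -(y * x) := by
    unfold cm
    abel
  rw [e]
  have a1 := N_add_le hτ (x * y) (-(y * x))
  rw [N_neg] at a1
  have a2 := N_mul_le_right hτ x y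
  have a3 := N_mul_le_left hτ y x
  linarith

theorem N_cm_le'_MainZ {τ : D →ₗ[ℂ] ℂ} (hτ : IsTr τ) (x y : D) :
    N τ (cm x y) ≤ 4 * ‖x‖ ^ 2 * N τ y := by
  have e : cm x y = -cm y x := by
    unfold cm
    abel
  rw [e, N_neg]
  exact N_cm_le_MainZ hτ y x

theorem central_MainZ (T : Tens τA τB τD iA iB) {f g : ℕ → D} (hf : CentralSeq τD f)
    (hg : CentralSeq τD g) : CentralSeq τD (fun n => star (cm (f n) (g n))) := by
  obtain ⟨Cf, hCf⟩ := hf.1
  obtain ⟨Cg, hCg⟩ := hg.1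
  have hCf0 : 0 ≤ Cf := (norm_nonneg _).trans (hCf 0)
  have hCg0 : 0 ≤ Cg := (norm_nonneg _).trans (hCg 0)
  refine ⟨⟨2 * (Cf * Cg), fun n => ?_⟩, fun a => ?_⟩
  · rw [norm_star]
    unfold cm
    have h1 := norm_sub_le (f n * g n) (g n * f n)
    have h2 := norm_mul_le (f n) (g n)
    have h3 := norm_mul_le (g n) (f n)
    have h4 := mul_le_mul (hCf n) (hCg n) (norm_nonneg _) hCf0
    linarith
  · have h1 : Tendsto (fun n => 8 * Cg ^ 2 * N τD (cm (f n) (star a)) +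
        8 * Cf ^ 2 * N τD (cm (g n) (star a))) atTop (𝓝 0) := by
      have h2 := ((hf.2 (star a)).const_mul (8 * Cg ^ 2)).add
        ((hg.2 (star a)).const_mul (8 * Cf ^ 2))
      rwa [mul_zero, mul_zero, add_zero] at h2
    refine squeeze_zero (fun n => N_nonneg T.trD _) (fun n => ?_) h1
    rw [N_cm_star T.trD]
    have e : cm (cm (f n) (g n)) (star a) =
        cm (cm (f n) (star a)) (g n) + cm (f n) (cm (g n) (star a)) := by
      unfold cm
      noncomm_ring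
    rw [e]
    have a1 := N_add_le T.trD (cm (cm (f n) (star a)) (g n)) (cm (f n) (cm (g n) (star a)))
    have a2 := N_cm_le_MainZ T.trD (cm (f n) (star a)) (g n)
    have a3 := N_cm_le'_MainZ T.trD (f n) (cm (g n) (star a))
    have a4 : ‖g n‖ ^ 2 ≤ Cg ^ 2 := pow_le_pow_left₀ (norm_nonneg _) (hCg n) 2
    have a5 : ‖f n‖ ^ 2 ≤ Cf ^ 2 := pow_le_pow_left₀ (norm_nonneg _) (hCf n) 2
    have a6 := mul_le_mul_of_nonneg_right a4 (N_nonneg T.trD (cm (f n) (star a)))
    have a7 := mul_le_mul_of_nonneg_right a5 (N_nonneg T.trD (cm (g n) (star a)))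
    linarith

/-- `N [f, g]` by the trace of `f [g, [f, g]*]`, with a decomposition of `f`. -/
private theorem N_cm_dec_MainZ {τ : D →ₗ[ℂ] ℂ} (hτ : IsTr τ) (f g : D) {k : ℕ} (C : ℝ)
    (z : Fin k → D) {ε K b : ℝ} (hε : N τ (f - (C : ℂ) • ∑ i, z i) ≤ ε)
    (hK : N τ (cm g (star (cm f g))) ≤ K)
    (hb : ∀ i, ‖τ ((g * star (cm f g) - star (cm f g) * g) * z i)‖ ≤ b) :
    N τ (cm f g) ≤ |C| * (k * b) + Real.sqrt (ε * K) := by
  set h := star (cm f g) with hh
  set w := f - (C : ℂ) • ∑ i, z i with hw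
  have h1 : N τ (cm f g) ≤ ‖τ (f * cm g h)‖ := by
    have e1 : τ (star (cm f g) * cm f g) = τ (f * cm g h) := by
      rw [← hh, hτ.comm h (cm f g)]
      have e2 : cm f g * h = f * g * h - g * (f * h) := by
        unfold cm
        noncomm_ring
      have e3 : f * cm g h = f * g * h - f * h * g := by
        unfold cm
        noncomm_ring
      rw [e2, e3, map_sub, map_sub, hτ.comm g (f * h)]
    unfold N
    rw [e1]
    exact Complex.re_le_norm _
  have h2 : τ (f * cm g h) = (C : ℂ) * (∑ i, τ (cm g h * z i)) + τ (w * cm g h) := by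
    have e1 : f = (C : ℂ) • (∑ i, z i) + w := by
      rw [hw]
      abel
    have e2 : f * cm g h = (C : ℂ) • ((∑ i, z i) * cm g h) + w * cm g h := by
      conv_lhs => rw [e1]
      rw [add_mul, smul_mul_assoc]
    rw [e2, map_add, map_smul, smul_eq_mul, hτ.comm (∑ i, z i), Finset.mul_sum, map_sum]
  have h3 : ‖∑ i, τ (cm g h * z i)‖ ≤ k * b := by
    refine (norm_sum_le _ _).trans ?_
    have h4 : ∀ i ∈ (Finset.univ : Finset (Fin k)), ‖τ (cm g h * z i)‖ ≤ b := fun i _ => hb i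
    have h5 := Finset.sum_le_card_nsmul _ _ _ h4
    rwa [Finset.card_univ, Fintype.card_fin, nsmul_eq_mul] at h5
  have h6 : ‖τ (w * cm g h)‖ ≤ Real.sqrt (ε * K) := by
    refine Real.le_sqrt_of_sq_le ((tau_mul_sq_le hτ w (cm g h)).trans ?_)
    exact mul_le_mul hε hK (N_nonneg hτ _) ((N_nonneg hτ _).trans hε)
  refine h1.trans ?_
  rw [h2]
  refine (norm_add_le _ _).trans (add_le_add ?_ h6)
  rw [norm_mul, Complex.norm_real, Real.norm_eq_abs]
  exact mul_le_mul_of_nonneg_left h3 (abs_nonneg C)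

/-- The centre: if `f n` is a central sequence of `D` which for every `ε` is within `ε` (in
the 2-norm) of `C` times a sum of at most `k` elements `z` with `Sand iA iB z`,
`Sand iB iA z`, then it commutes asymptotically with every central sequence `g n`:
`N [f, g] = τ ([f, g] [f, g]*)` is, up to `2 ‖g‖ ‖[f, g]‖ √ε`, the sum of
`τ (z [g, [f, g]*])`, and `[f, g]*` is central. -/
theorem center_seq (T : Tens τA τB τD iA iB) (hd : Dense2 τD iA iB) (hA : Fac τA)
    (hB : Fac τB) (sA : Sep τA) (sB : Sep τB) (mA : ¬ McDuff τA) (mB : ¬ McDuff τB)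
    {f g : ℕ → D} (hf : CentralSeq τD f) (hg : CentralSeq τD g)
    (hz : ∀ ε : ℝ, 0 < ε → ∃ (k : ℕ) (C : ℝ), ∀ n, ∃ z : Fin k → D,
      (∀ i, Sand iA iB (z i) ∧ Sand iB iA (z i)) ∧ N τD (f n - (C : ℂ) • ∑ i, z i) ≤ ε) :
    Tendsto (fun n => N τD (cm (f n) (g n))) atTop (𝓝 0) := by
  have hh := central_MainZ T hf hg
  obtain ⟨Cg, hCg⟩ := hg.1
  obtain ⟨Kg, hKg⟩ := N_bdd_MainZ T hg
  obtain ⟨Kh, hKh⟩ := N_bdd_MainZ T hh
  have hKg0 : 0 ≤ Kg := (N_nonneg T.trD (g 0)).trans (hKg 0)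
  have hKh0 : 0 ≤ Kh := (N_nonneg T.trD _).trans (hKh 0)
  set K : ℝ := 4 * Cg ^ 2 * Kh with hK
  have hK0 : 0 ≤ K := by positivity
  have hKn : ∀ n, N τD (cm (g n) (star (cm (f n) (g n)))) ≤ K := by
    intro n
    refine (N_cm_le'_MainZ T.trD _ _).trans ?_
    have h1 : ‖g n‖ ^ 2 ≤ Cg ^ 2 := pow_le_pow_left₀ (norm_nonneg _) (hCg n) 2
    have h2 := hKh n
    have h3 : 4 * ‖g n‖ ^ 2 ≤ 4 * Cg ^ 2 := by linarith
    exact mul_le_mul h3 h2 (N_nonneg T.trD _) (by positivity)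
  rw [Metric.tendsto_atTop]
  intro ε₀ hε₀
  set ε : ℝ := ε₀ ^ 2 / (9 * (K + 1)) with hε
  have hεpos : 0 < ε := by positivity
  have hsq : Real.sqrt (ε * K) ≤ ε₀ / 3 := by
    refine Real.sqrt_le_iff.2 ⟨by positivity, ?_⟩
    have h1 : ε * K ≤ ε * (K + 1) := mul_le_mul_of_nonneg_left (by linarith) hεpos.le
    have h2 : ε * (K + 1) = (ε₀ / 3) ^ 2 := by
      rw [hε]
      field_simp
      ring
    linarith
  obtain ⟨k, C, hkC⟩ := hz ε hεpos
  have hδ : 0 < ε₀ / (3 * ((|C| * k + 1) * (Kg + Kh + 1))) := by positivity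
  obtain ⟨FA, FB, C', hC'0, hC'⟩ := sand_factors T hd hA hB sA sB mA mB hδ
  have h1 : Tendsto (fun n => |C| * k * (C' * (SS τD iA iB FA FB (g n) +
      SS τD iA iB FA FB (star (cm (f n) (g n)))))) atTop (𝓝 0) := by
    have h2 := (((SS_tendsto_MainZ T hg FA FB).add
      (SS_tendsto_MainZ T hh FA FB)).const_mul C').const_mul (|C| * k)
    rwa [add_zero, mul_zero, mul_zero] at h2
  obtain ⟨n₀, hn₀⟩ := (Metric.tendsto_atTop.1 h1) (ε₀ / 3) (by positivity)
  refine ⟨n₀, fun n hn => ?_⟩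
  have h3 := hn₀ n hn
  rw [Real.dist_eq, sub_zero] at h3
  have h4 := (le_abs_self _).trans_lt h3
  rw [Real.dist_eq, sub_zero, abs_of_nonneg (N_nonneg T.trD _)]
  obtain ⟨z, hz1, hz2⟩ := hkC n
  have h5 := N_cm_dec_MainZ T.trD (f n) (g n) C z hz2 (hKn n)
    (fun i => hC' (g n) (star (cm (f n) (g n))) (z i) (hz1 i).1 (hz1 i).2)
  refine h5.trans_lt ?_
  have h6 : |C| * k * (ε₀ / (3 * ((|C| * k + 1) * (Kg + Kh + 1))) *
      (N τD (g n) + N τD (star (cm (f n) (g n))))) ≤ ε₀ / 3 := by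
    calc |C| * k * (ε₀ / (3 * ((|C| * k + 1) * (Kg + Kh + 1))) *
        (N τD (g n) + N τD (star (cm (f n) (g n))))) ≤
        (|C| * k + 1) * (ε₀ / (3 * ((|C| * k + 1) * (Kg + Kh + 1))) * (Kg + Kh + 1)) := by
          refine mul_le_mul (by linarith) (mul_le_mul_of_nonneg_left ?_ hδ.le) ?_ (by positivity)
          · have := hKg n
            have := hKh n
            linarith
          · exact mul_nonneg hδ.le (add_nonneg (N_nonneg T.trD _) (N_nonneg T.trD _))
      _ = ε₀ / 3 := by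
          field_simp
  have h7 : |C| * (k * (ε₀ / (3 * ((|C| * k + 1) * (Kg + Kh + 1))) *
      (N τD (g n) + N τD (star (cm (f n) (g n)))) +
      C' * (SS τD iA iB FA FB (g n) + SS τD iA iB FA FB (star (cm (f n) (g n)))))) =
      |C| * k * (ε₀ / (3 * ((|C| * k + 1) * (Kg + Kh + 1))) *
      (N τD (g n) + N τD (star (cm (f n) (g n))))) +
      |C| * k * (C' * (SS τD iA iB FA FB (g n) +
      SS τD iA iB FA FB (star (cm (f n) (g n))))) := by ring
  rw [h7]
  linarith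

end Pool.McT
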