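import Pool.Agent.McT.Fun
import Pool.Agent.McT.GS

/-! Contractive changes of coordinates and bilinear sums of commutators. -/

set_option autoImplicit false

namespace Pool.McT

variable {A : Type*} [CStarAlgebra A] {τ : A →ₗ[ℂ] ℂ}

/-- The matrix `O` is a contraction from `ℓ²(n)` to `ℓ²(m)`. -/
def IsContr {m n : ℕ} (O : Fin m → Fin n → ℂ) : Prop :=
  ∀ t : Fin n → ℂ, ∑ i, ‖∑ j, O i j * t j‖ ^ 2 ≤ ∑ j, ‖t j‖ ^ 2

theorem IsContr.conj {m n : ℕ} {O : Fin m → Fin n → ℂ} (hO : IsContr O) :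
    IsContr fun i j => starRingEnd ℂ (O i j) := by
  intro t
  have h := hO fun j => starRingEnd ℂ (t j)
  have e1 : ∀ i, ‖∑ j, starRingEnd ℂ (O i j) * t j‖ = ‖∑ j, O i j * starRingEnd ℂ (t j)‖ := by
    intro i
    rw [← Complex.norm_conj (∑ j, O i j * starRingEnd ℂ (t j)), map_sum]
    simp only [map_mul, Complex.conj_conj]
  simp only [e1]
  simpa only [Complex.norm_conj] using h

private theorem contr_tau_sum {m : ℕ} (t : Fin m → ℂ) (e : Fin m → A) (G : A) :
    τ (star (∑ p, t p • e p) * G) = ∑ p, starRingEnd ℂ (t p) * τ (star (e p) * G) := by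
  rw [star_sum, Finset.sum_mul, map_sum]
  refine Finset.sum_congr rfl fun p _ => ?_
  rw [star_smul, smul_mul_assoc, map_smul, smul_eq_mul]
  rfl

private theorem contr_tau_orth {m : ℕ} (t : Fin m → ℂ) (e : Fin m → A)
    (he : ∀ p q, τ (star (e p) * e q) = if p = q then 1 else 0) (q : Fin m) :
    τ (star (e q) * ∑ p, t p • e p) = t q := by
  rw [Finset.mul_sum, map_sum]
  have h1 : ∀ p, τ (star (e q) * t p • e p) = if q = p then t p else 0 := by
    intro p
    rw [mul_smul_comm, map_smul, he, smul_eq_mul]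
    split_ifs <;> simp
  simp only [h1]
  rw [Finset.sum_ite_eq, if_pos (Finset.mem_univ q)]

private theorem contr_re_sum {m : ℕ} (t : Fin m → ℂ) :
    (∑ p, starRingEnd ℂ (t p) * t p).re = ∑ p, ‖t p‖ ^ 2 := by
  rw [Complex.re_sum]
  refine Finset.sum_congr rfl fun p _ => ?_
  rw [← Complex.normSq_eq_conj_mul_self, Complex.ofReal_re, Complex.normSq_eq_norm_sq]

private theorem contr_N_sum {m : ℕ} (t : Fin m → ℂ) (e : Fin m → A)
    (he : ∀ p q, τ (star (e p) * e q) = if p = q then 1 else 0) :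
    N τ (∑ p, t p • e p) = ∑ p, ‖t p‖ ^ 2 := by
  unfold N
  rw [contr_tau_sum]
  have h1 : ∀ q, τ (star (e q) * ∑ p, t p • e p) = t q := contr_tau_orth t e he
  simp only [h1]
  exact contr_re_sum t

private theorem contr_bessel (hτ : IsTr τ) {m : ℕ} (e : Fin m → A)
    (he : ∀ p q, τ (star (e p) * e q) = if p = q then 1 else 0) (G : A) :
    ∑ p, ‖τ (star (e p) * G)‖ ^ 2 ≤ N τ G := by
  obtain ⟨c, hc⟩ : ∃ c : Fin m → ℂ, c = fun p => τ (star (e p) * G) := ⟨_, rfl⟩
  obtain ⟨P, hP⟩ : ∃ P : A, P = ∑ p, c p • e p := ⟨_, rfl⟩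
  have h0 := N_nonneg hτ (G - P)
  have h1 : τ (star P * G) = ∑ p, starRingEnd ℂ (c p) * c p := by
    rw [hP, contr_tau_sum]
    simp only [hc]
  have h2 : N τ P = ∑ p, ‖c p‖ ^ 2 := by
    rw [hP]
    exact contr_N_sum c e he
  have h3 : star (G - P) * (G - P) = star G * G - star P * G - star (star P * G) +
      star P * P := by
    rw [star_sub, star_mul, star_star]
    noncomm_ring
  have h4 : N τ (G - P) = N τ G - 2 * (τ (star P * G)).re + N τ P := by
    unfold N
    rw [h3]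
    simp only [map_add, map_sub, Complex.add_re, Complex.sub_re]
    rw [tau_star hτ, Complex.conj_re]
    ring
  rw [h4, h1, contr_re_sum, h2] at h0
  simp only [hc] at h0
  linarith

/-- Write `a j = ∑ p, c j p • e p` with orthonormal `e` (`gram_schmidt`): the left side is
`∑ p, ∑ i, ‖∑ j, O i j * c j p‖²`, the right side `∑ p, ∑ j, ‖c j p‖²`. -/
theorem N_contr_le (hτ : IsTr τ) (hf : ∀ x : A, N τ x = 0 → x = 0) {m n : ℕ}
    {O : Fin m → Fin n → ℂ} (hO : IsContr O) (a : Fin n → A) :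
    ∑ i, N τ (∑ j, O i j • a j) ≤ ∑ j, N τ (a j) := by
  obtain ⟨k, e, c, _, he, hc⟩ := gram_schmidt hτ hf n a
  have h1 : ∀ i, ∑ j, O i j • a j = ∑ p, (∑ j, O i j * c j p) • e p := by
    intro i
    have e1 : ∀ j, O i j • a j = ∑ p, (O i j * c j p) • e p := by
      intro j
      rw [hc j, Finset.smul_sum]
      simp only [smul_smul]
    simp only [e1]
    rw [Finset.sum_comm]
    refine Finset.sum_congr rfl fun p _ => ?_
    rw [Finset.sum_smul]
  have h2 : ∀ i, N τ (∑ j, O i j • a j) = ∑ p, ‖∑ j, O i j * c j p‖ ^ 2 := by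
    intro i
    rw [h1]
    exact contr_N_sum _ e he
  have h3 : ∀ j, N τ (a j) = ∑ p, ‖c j p‖ ^ 2 := by
    intro j
    rw [hc j]
    exact contr_N_sum _ e he
  simp only [h2, h3]
  rw [Finset.sum_comm, Finset.sum_comm (s := Finset.univ (α := Fin n))]
  exact Finset.sum_le_sum fun p _ => hO fun j => c j p

/-- `N_contr_le` for the families `cm (a j) u` and `cm (star (a j)) u` (the latter with the
conjugate matrix). -/
theorem S_contr_le (hτ : IsTr τ) (hf : ∀ x : A, N τ x = 0 → x = 0) (F : Finset A) {m n : ℕ}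
    {O : Fin m → Fin n → ℂ} (hO : IsContr O) (a : Fin n → A) :
    ∑ i, S τ F (∑ j, O i j • a j) ≤ ∑ j, S τ F (a j) := by
  have hcm : ∀ (c : Fin n → ℂ) (b : Fin n → A) (u : A),
      cm (∑ j, c j • b j) u = ∑ j, c j • cm (b j) u := by
    intro c b u
    unfold cm
    rw [Finset.sum_mul, Finset.mul_sum, ← Finset.sum_sub_distrib]
    refine Finset.sum_congr rfl fun j _ => ?_
    rw [smul_mul_assoc, mul_smul_comm, smul_sub]
  have hst : ∀ i, star (∑ j, O i j • a j) = ∑ j, starRingEnd ℂ (O i j) • star (a j) := by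
    intro i
    rw [star_sum]
    refine Finset.sum_congr rfl fun j _ => ?_
    rw [star_smul]
    rfl
  unfold S
  rw [Finset.sum_comm, Finset.sum_comm (s := Finset.univ (α := Fin n))]
  refine Finset.sum_le_sum fun u _ => ?_
  rw [Finset.sum_add_distrib, Finset.sum_add_distrib]
  refine add_le_add ?_ ?_
  · have h1 := N_contr_le hτ hf hO fun j => cm (a j) u
    simp only [hcm]
    exact h1
  · have h1 := N_contr_le hτ hf hO.conj fun j => cm (star (a j)) u
    simp only [hst, hcm]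
    exact h1

/-- The sum is `∑ i, φ (a i * y i - y i * a i)` with `y i = ∑ j, O i j • a' j`. Use `fun_comm`
for `a i` and `star (y i)` (`N_star`, `S τ F (star x) = S τ F x`), `N_contr_le`,
`S_contr_le`. -/
theorem bilin_bound (hτ : IsTr τ) (hf : ∀ x : A, N τ x = 0 → x = 0) {F : Finset A}
    {α Λ : ℝ} (hα : 0 ≤ α) (hΛ : 0 ≤ Λ) (hAD : AD τ F α Λ) (φ : A →ₗ[ℂ] ℂ)
    (hφ : ∀ x y, ‖φ (x * y)‖ ^ 2 ≤ N τ x * N τ y) {η : ℝ} (hη : 0 < η) {m n : ℕ}
    {O : Fin m → Fin n → ℂ} (hO : IsContr O) (a : Fin m → A) (a' : Fin n → A) :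
    ‖∑ i, ∑ j, O i j * φ (a i * a' j - a' j * a i)‖ ≤
      2 * (η + α / η) * (∑ i, N τ (a i) + ∑ j, N τ (a' j))
        + 2 * (Λ / η) * (∑ i, S τ F (a i) + ∑ j, S τ F (a' j)) := by
  obtain ⟨y, hy⟩ : ∃ y : Fin m → A, y = fun i => ∑ j, O i j • a' j := ⟨_, rfl⟩
  have hSs : ∀ x : A, S τ F (star x) = S τ F x := by
    intro x
    unfold S
    refine Finset.sum_congr rfl fun u _ => ?_
    rw [star_star, add_comm]
  have h1 : ∀ i, ∑ j, O i j * φ (a i * a' j - a' j * a i) =
      φ (star (star (a i)) * y i - y i * star (star (a i))) := by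
    intro i
    rw [star_star, hy]
    simp only
    rw [Finset.mul_sum, Finset.sum_mul, ← Finset.sum_sub_distrib, map_sum]
    refine Finset.sum_congr rfl fun j _ => ?_
    rw [mul_smul_comm, smul_mul_assoc, ← smul_sub, map_smul, smul_eq_mul]
  have h2 : ∀ i, ‖∑ j, O i j * φ (a i * a' j - a' j * a i)‖ ≤
      2 * (η + α / η) * (N τ (a i) + N τ (y i)) +
        2 * (Λ / η) * (S τ F (a i) + S τ F (y i)) := by
    intro i
    rw [h1]
    have h3 := fun_comm hτ hα hΛ hAD φ hφ hη (y i) (star (a i))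
    rw [N_star hτ, hSs, add_comm (N τ (y i)), add_comm (S τ F (y i))] at h3
    exact h3
  have hN : ∑ i, N τ (y i) ≤ ∑ j, N τ (a' j) := by
    rw [hy]
    exact N_contr_le hτ hf hO a'
  have hS : ∑ i, S τ F (y i) ≤ ∑ j, S τ F (a' j) := by
    rw [hy]
    exact S_contr_le hτ hf F hO a'
  have hc1 : 0 ≤ 2 * (η + α / η) := by positivity
  have hc2 : 0 ≤ 2 * (Λ / η) := by positivity
  calc ‖∑ i, ∑ j, O i j * φ (a i * a' j - a' j * a i)‖
      ≤ ∑ i, ‖∑ j, O i j * φ (a i * a' j - a' j * a i)‖ := norm_sum_le _ _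
    _ ≤ ∑ i, (2 * (η + α / η) * (N τ (a i) + N τ (y i)) +
        2 * (Λ / η) * (S τ F (a i) + S τ F (y i))) := Finset.sum_le_sum fun i _ => h2 i
    _ = 2 * (η + α / η) * (∑ i, N τ (a i) + ∑ i, N τ (y i)) +
        2 * (Λ / η) * (∑ i, S τ F (a i) + ∑ i, S τ F (y i)) := by
      rw [Finset.sum_add_distrib, ← Finset.mul_sum, ← Finset.mul_sum, Finset.sum_add_distrib,
        Finset.sum_add_distrib]
    _ ≤ _ := by gcongr

/-- Bessel's inequality: for orthonormal families `f`, `f'` and a contraction `y` the matrix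
`τ (f q * f' s * y)` is a contraction: `∑ s, O q s * t s = τ (f q * G)`, `G = (∑ t s f' s) y`,
the `star (f q)` are orthonormal (`IsTr.comm`), so `∑ q ‖τ (f q * G)‖² ≤ N G
≤ N (∑ s, t s • f' s) = ∑ ‖t s‖²`. -/
theorem isContr_right (hτ : IsTr τ) {m n : ℕ} (f : Fin m → A) (f' : Fin n → A)
    (hf : ∀ p q, τ (star (f p) * f q) = if p = q then 1 else 0)
    (hf' : ∀ p q, τ (star (f' p) * f' q) = if p = q then 1 else 0) {y : A} (hy : ‖y‖ ≤ 1) :
    IsContr fun q s => τ (f q * f' s * y) := by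
  intro t
  obtain ⟨P, hP⟩ : ∃ P : A, P = ∑ s, t s • f' s := ⟨_, rfl⟩
  have h1 : ∀ q, ∑ s, τ (f q * f' s * y) * t s = τ (star (star (f q)) * (P * y)) := by
    intro q
    rw [star_star, hP, Finset.sum_mul, Finset.mul_sum, map_sum]
    refine Finset.sum_congr rfl fun s _ => ?_
    rw [smul_mul_assoc, mul_smul_comm, map_smul, smul_eq_mul, mul_comm, mul_assoc]
  have h2 := contr_bessel hτ (fun q => star (f q)) (fun p q => by
    rw [star_star, hτ.comm, hf]
    simp only [eq_comm]) (P * y)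
  simp only [h1]
  refine h2.trans ?_
  have h3 := N_mul_le_right hτ P y
  have h4 : ‖y‖ ^ 2 ≤ 1 := pow_le_one₀ (norm_nonneg _) hy
  have h5 := mul_le_of_le_one_left (N_nonneg hτ P) h4
  have h6 : N τ P = ∑ s, ‖t s‖ ^ 2 := by
    rw [hP]
    exact contr_N_sum t f' hf'
  linarith

/-- The same for `τ (e' r * e p * x) = τ (e p * (x * e' r))`. -/
theorem isContr_left (hτ : IsTr τ) {m n : ℕ} (e : Fin m → A) (e' : Fin n → A)
    (he : ∀ p q, τ (star (e p) * e q) = if p = q then 1 else 0)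
    (he' : ∀ p q, τ (star (e' p) * e' q) = if p = q then 1 else 0) {x : A} (hx : ‖x‖ ≤ 1) :
    IsContr fun p r => τ (e' r * e p * x) := by
  intro t
  obtain ⟨P, hP⟩ : ∃ P : A, P = ∑ r, t r • e' r := ⟨_, rfl⟩
  have h1 : ∀ p, ∑ r, τ (e' r * e p * x) * t r = τ (star (star (e p)) * (x * P)) := by
    intro p
    rw [star_star, hP, Finset.mul_sum, Finset.mul_sum, map_sum]
    refine Finset.sum_congr rfl fun r _ => ?_
    rw [mul_smul_comm, mul_smul_comm, map_smul, smul_eq_mul, mul_comm, mul_assoc, hτ.comm,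
      mul_assoc]
  have h2 := contr_bessel hτ (fun p => star (e p)) (fun p q => by
    rw [star_star, hτ.comm, he]
    simp only [eq_comm]) (x * P)
  simp only [h1]
  refine h2.trans ?_
  have h3 := N_mul_le_left hτ x P
  have h4 : ‖x‖ ^ 2 ≤ 1 := pow_le_one₀ (norm_nonneg _) hx
  have h5 := mul_le_of_le_one_left (N_nonneg hτ P) h4
  have h6 : N τ P = ∑ r, ‖t r‖ ^ 2 := by
    rw [hP]
    exact contr_N_sum t e' he'
  linarith

end Pool.McT
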