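import Pool.Agent.McT.P.ProdZ
import Pool.Agent.McT.P.Dense

/-! Extension of `sand_bound_alg` to `D`. -/

set_option autoImplicit false

namespace Pool.McT

variable {A B D : Type*} [CStarAlgebra A] [CStarAlgebra B] [CStarAlgebra D]
  {τA : A →ₗ[ℂ] ℂ} {τB : B →ₗ[ℂ] ℂ} {τD : D →ₗ[ℂ] ℂ} {iA : A →⋆ₐ[ℂ] D} {iB : B →⋆ₐ[ℂ] D}

theorem tN_DenseZ {τ : D →ₗ[ℂ] ℂ} (hτ : IsTr τ) {x : ℕ → D} {y : D}
    (h : Filter.Tendsto (fun n => N τ (x n - y)) Filter.atTop (nhds 0)) :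
    Filter.Tendsto (fun n => N τ (x n)) Filter.atTop (nhds (N τ y)) := by
  have h1 : Filter.Tendsto (fun n => Real.sqrt (N τ (x n - y))) Filter.atTop (nhds 0) := by
    have := h.sqrt
    rwa [Real.sqrt_zero] at this
  have h2 : Filter.Tendsto (fun n => Real.sqrt (N τ (x n))) Filter.atTop
      (nhds (Real.sqrt (N τ y))) := by
    rw [tendsto_iff_dist_tendsto_zero]
    refine squeeze_zero (fun n => dist_nonneg) (fun n => ?_) h1
    rw [Real.dist_eq, abs_le]
    have a1 := sqrt_N_add_le hτ (x n - y) y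
    have a2 := sqrt_N_add_le hτ (-(x n - y)) (x n)
    rw [N_neg] at a2
    have e1 : x n - y + y = x n := by abel
    have e2 : -(x n - y) + x n = y := by abel
    rw [e1] at a1
    rw [e2] at a2
    constructor <;> linarith
  have h3 := h2.pow 2
  simp only [Real.sq_sqrt (N_nonneg hτ _)] at h3
  exact h3

theorem tcm_DenseZ {τ : D →ₗ[ℂ] ℂ} (hτ : IsTr τ) {x : ℕ → D} {y : D}
    (h : Filter.Tendsto (fun n => N τ (x n - y)) Filter.atTop (nhds 0)) (u : D) :
    Filter.Tendsto (fun n => N τ (cm (x n) u)) Filter.atTop (nhds (N τ (cm y u))) := by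
  refine tN_DenseZ hτ ?_
  have h1 : Filter.Tendsto (fun n => 4 * ‖u‖ ^ 2 * N τ (x n - y)) Filter.atTop (nhds 0) := by
    have := h.const_mul (4 * ‖u‖ ^ 2)
    rwa [mul_zero] at this
  refine squeeze_zero (fun n => N_nonneg hτ _) (fun n => ?_) h1
  have e : cm (x n) u - cm y u = (x n - y) * u + -(u * (x n - y)) := by
    unfold cm
    noncomm_ring
  rw [e]
  have a1 := N_add_le hτ ((x n - y) * u) (-(u * (x n - y)))
  rw [N_neg] at a1
  have a2 := N_mul_le_right hτ (x n - y) u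
  have a3 := N_mul_le_left hτ u (x n - y)
  linarith

theorem tstar_DenseZ {τ : D →ₗ[ℂ] ℂ} (hτ : IsTr τ) {x : ℕ → D} {y : D}
    (h : Filter.Tendsto (fun n => N τ (x n - y)) Filter.atTop (nhds 0)) :
    Filter.Tendsto (fun n => N τ (star (x n) - star y)) Filter.atTop (nhds 0) := by
  simp only [← star_sub, N_star hτ]
  exact h

theorem tmul_DenseZ {τ : D →ₗ[ℂ] ℂ} (hτ : IsTr τ) {x : ℕ → D} {y : D}
    (h : Filter.Tendsto (fun n => N τ (x n - y)) Filter.atTop (nhds 0)) (z : D) :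
    Filter.Tendsto (fun n => N τ (x n * z - y * z)) Filter.atTop (nhds 0) := by
  have h1 : Filter.Tendsto (fun n => ‖z‖ ^ 2 * N τ (x n - y)) Filter.atTop (nhds 0) := by
    have := h.const_mul (‖z‖ ^ 2)
    rwa [mul_zero] at this
  refine squeeze_zero (fun n => N_nonneg hτ _) (fun n => ?_) h1
  rw [← sub_mul]
  exact N_mul_le_right hτ _ _

theorem ttau_DenseZ {τ : D →ₗ[ℂ] ℂ} (hτ : IsTr τ) {x x' : ℕ → D} {y y' : D}
    (h : Filter.Tendsto (fun n => N τ (x n - y)) Filter.atTop (nhds 0))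
    (h' : Filter.Tendsto (fun n => N τ (x' n - y')) Filter.atTop (nhds 0)) :
    Filter.Tendsto (fun n => τ (x n * x' n)) Filter.atTop (nhds (τ (y * y'))) := by
  have cs : ∀ a b : D, ‖τ (a * b)‖ ≤ Real.sqrt (N τ a) * Real.sqrt (N τ b) := by
    intro a b
    rw [← Real.sqrt_mul (N_nonneg hτ a)]
    exact Real.le_sqrt_of_sq_le (tau_mul_sq_le hτ a b)
  have h1 : Filter.Tendsto (fun n => Real.sqrt (N τ (x n - y)) * Real.sqrt (N τ (x' n)) +
      Real.sqrt (N τ y) * Real.sqrt (N τ (x' n - y'))) Filter.atTop (nhds 0) := by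
    have a1 := h.sqrt.mul (tN_DenseZ hτ h').sqrt
    have a2 := h'.sqrt.const_mul (Real.sqrt (N τ y))
    have a3 := a1.add a2
    rw [Real.sqrt_zero, zero_mul, mul_zero, add_zero] at a3
    exact a3
  rw [tendsto_iff_dist_tendsto_zero]
  refine squeeze_zero (fun n => dist_nonneg) (fun n => ?_) h1
  rw [dist_eq_norm, ← map_sub]
  have e : x n * x' n - y * y' = (x n - y) * x' n + y * (x' n - y') := by noncomm_ring
  rw [e, map_add]
  exact (norm_add_le _ _).trans (add_le_add (cs _ _) (cs _ _))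

theorem tSS_DenseZ {τ : D →ₗ[ℂ] ℂ} (hτ : IsTr τ) (iA : A →⋆ₐ[ℂ] D) (iB : B →⋆ₐ[ℂ] D)
    (FA : Finset A) (FB : Finset B) {x : ℕ → D} {y : D}
    (h : Filter.Tendsto (fun n => N τ (x n - y)) Filter.atTop (nhds 0)) :
    Filter.Tendsto (fun n => SS τ iA iB FA FB (x n)) Filter.atTop
      (nhds (SS τ iA iB FA FB y)) := by
  unfold SS
  exact (tendsto_finsetSum _ fun u _ => (tcm_DenseZ hτ h (iA u)).add
    (tcm_DenseZ hτ (tstar_DenseZ hτ h) (iA u))).add
    (tendsto_finsetSum _ fun u _ => (tcm_DenseZ hτ h (iB u)).add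
    (tcm_DenseZ hτ (tstar_DenseZ hτ h) (iB u)))

theorem tapp_DenseZ (hτ : IsTr τD) (hd : Dense2 τD iA iB) (f : D) :
    ∃ (k : ℕ → ℕ) (a : ∀ n, Fin (k n) → A) (b : ∀ n, Fin (k n) → B),
      Filter.Tendsto (fun n => N τD ((∑ i, iA (a n i) * iB (b n i)) - f)) Filter.atTop
        (nhds 0) := by
  choose k a b h using fun n : ℕ => hd f (1 / ((n : ℝ) + 1)) (by positivity)
  refine ⟨k, a, b, ?_⟩
  refine squeeze_zero (fun n => N_nonneg hτ _) (fun n => ?_)
    tendsto_one_div_add_atTop_nhds_zero_nat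
  rw [← N_neg, neg_sub]
  exact h n

/-- As `prod_bound` (copy its proof from `Dense`). -/
theorem sand_bound (T : Tens τA τB τD iA iB) (hd : Dense2 τD iA iB)
    (hfA : ∀ x : A, N τA x = 0 → x = 0) (hfB : ∀ x : B, N τB x = 0 → x = 0) {FA : Finset A}
    {FB : Finset B} {α Λ : ℝ} (hα : 0 ≤ α) (hΛ : 0 ≤ Λ) (hA : AD τA FA α Λ)
    (hB : AD τB FB α Λ) {z : D} (hz : Sand iA iB z) (hz' : Sand iB iA z) {η : ℝ}
    (hη : 0 < η) (f g : D) :
    ‖τD ((f * g - g * f) * z)‖ ≤ 4 * (η + α / η) * (N τD f + N τD g)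
      + 2 * (Λ / η) * (SS τD iA iB FA FB f + SS τD iA iB FA FB g) := by
  obtain ⟨k, a, b, hf⟩ := tapp_DenseZ T.trD hd f
  obtain ⟨l, a', b', hg⟩ := tapp_DenseZ T.trD hd g
  have hle := fun n => sand_bound_alg T hfA hfB hα hΛ hA hB (a n) (b n) (a' n) (b' n) hz hz' hη
    _ _ rfl rfl
  have hL : Filter.Tendsto (fun n => ‖τD (((∑ i, iA (a n i) * iB (b n i)) *
      (∑ i, iA (a' n i) * iB (b' n i)) - (∑ i, iA (a' n i) * iB (b' n i)) *
      (∑ i, iA (a n i) * iB (b n i))) * z)‖) Filter.atTop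
      (nhds ‖τD ((f * g - g * f) * z)‖) := by
    have h1 := ttau_DenseZ T.trD hf (tmul_DenseZ T.trD hg z)
    have h2 := ttau_DenseZ T.trD hg (tmul_DenseZ T.trD hf z)
    have h3 := (h1.sub h2).norm
    have e : ∀ p q r : D, τD (p * (q * r)) - τD (q * (p * r)) = τD ((p * q - q * p) * r) := by
      intro p q r
      rw [← map_sub]
      congr 1
      noncomm_ring
    simp only [e] at h3
    exact h3
  have hR := (((tN_DenseZ T.trD hf).add (tN_DenseZ T.trD hg)).const_mul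
    (4 * (η + α / η))).add (((tSS_DenseZ T.trD iA iB FA FB hf).add
      (tSS_DenseZ T.trD iA iB FA FB hg)).const_mul (2 * (Λ / η)))
  exact le_of_tendsto_of_tendsto' hL hR hle

end Pool.McT
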