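import Pool.Agent.McT.Ident

/-! The identity for the commutator of two tensors. -/

set_option autoImplicit false

namespace Pool.McT

variable {A B D : Type*} [CStarAlgebra A] [CStarAlgebra B] [CStarAlgebra D]
  {τA : A →ₗ[ℂ] ℂ} {τB : B →ₗ[ℂ] ℂ} {τD : D →ₗ[ℂ] ℂ} {iA : A →⋆ₐ[ℂ] D} {iB : B →⋆ₐ[ℂ] D}

private theorem mul_IdentP (T : Tens τA τB τD iA iB) {n n' : ℕ} (a : Fin n → A)
    (f : Fin n → B) (a' : Fin n' → A) (f' : Fin n' → B) {v w : D}
    (hv : v = ∑ q, iA (a q) * iB (f q)) (hw : w = ∑ s, iA (a' s) * iB (f' s)) :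
    v * w = ∑ q, ∑ s, iA (a q * a' s) * iB (f q * f' s) := by
  rw [hv, hw, Finset.sum_mul]
  refine Finset.sum_congr rfl fun q _ => ?_
  rw [Finset.mul_sum]
  refine Finset.sum_congr rfl fun s _ => ?_
  rw [map_mul, map_mul, mul_assoc, mul_assoc, ← mul_assoc (iB (f q)), ← T.comm (a' s) (f q),
    mul_assoc]

private theorem mul_IdentP' (T : Tens τA τB τD iA iB) {m m' : ℕ} (b : Fin m → B)
    (e : Fin m → A) (b' : Fin m' → B) (e' : Fin m' → A) {v w : D}
    (hv : v = ∑ p, iB (b p) * iA (e p)) (hw : w = ∑ r, iB (b' r) * iA (e' r)) :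
    w * v = ∑ p, ∑ r, iB (b' r * b p) * iA (e' r * e p) := by
  rw [hv, hw, Finset.mul_sum]
  refine Finset.sum_congr rfl fun p _ => ?_
  rw [Finset.sum_mul]
  refine Finset.sum_congr rfl fun r _ => ?_
  rw [map_mul, map_mul, mul_assoc, mul_assoc, ← mul_assoc (iA (e' r)), T.comm (e' r) (b p),
    mul_assoc]

private theorem mid_left_IdentP {n n' : ℕ} (a : Fin n → A) (f : Fin n → B)
    (a' : Fin n' → A) (f' : Fin n' → B) {v : D} (hv : v = ∑ q, iA (a q) * iB (f q)) :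
    ∑ q, ∑ s, iA (a' s * a q) * iB (f q * f' s) = ∑ s, iA (a' s) * v * iB (f' s) := by
  rw [Finset.sum_comm, hv]
  refine Finset.sum_congr rfl fun r _ => ?_
  rw [Finset.mul_sum, Finset.sum_mul]
  refine Finset.sum_congr rfl fun q _ => ?_
  rw [map_mul, map_mul]
  simp only [mul_assoc]

private theorem mid_right_IdentP (T : Tens τA τB τD iA iB) {m m' : ℕ} (b : Fin m → B)
    (e : Fin m → A) (b' : Fin m' → B) (e' : Fin m' → A) {v : D}
    (hv : v = ∑ p, iB (b p) * iA (e p)) :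
    ∑ p, ∑ r, iB (b p * b' r) * iA (e' r * e p) = ∑ r, iA (e' r) * v * iB (b' r) := by
  rw [Finset.sum_comm, hv]
  refine Finset.sum_congr rfl fun r _ => ?_
  rw [Finset.mul_sum, Finset.sum_mul]
  refine Finset.sum_congr rfl fun p _ => ?_
  rw [← T.comm (e' r * e p) (b p * b' r), map_mul, map_mul, mul_assoc, mul_assoc,
    mul_assoc, ← mul_assoc (iA (e p)), T.comm (e p) (b p), mul_assoc]

/-- As `comm_ident`. With `v = ∑_q A_q f_q = ∑_p e_p B_p`, `w = ∑_s A'_s f'_s = ∑_r e'_r B'_r`: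
`v w = ∑ A_q A'_s f_q f'_s`, `w v = ∑ A'_s A_q f'_s f_q`; the difference is
`∑ [A_q, A'_s] f_q f'_s + ∑ A'_s A_q [f_q, f'_s]`, the second sum is
`∑ e'_r e_p [B_p, B'_r]`. -/
theorem comm_ident2 (T : Tens τA τB τD iA iB) {m n m' n' : ℕ} (e : Fin m → A) (f : Fin n → B)
    (c : Fin m → Fin n → ℂ) (e' : Fin m' → A) (f' : Fin n' → B) (c' : Fin m' → Fin n' → ℂ)
    (v w : D) (hv : v = ∑ p, ∑ q, c p q • (iA (e p) * iB (f q)))
    (hw : w = ∑ r, ∑ s, c' r s • (iA (e' r) * iB (f' s))) :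
    v * w - w * v =
      (∑ q, ∑ s, iA ((∑ p, c p q • e p) * (∑ r, c' r s • e' r)
        - (∑ r, c' r s • e' r) * (∑ p, c p q • e p)) * iB (f q * f' s))
      + ∑ p, ∑ r, iB ((∑ q, c p q • f q) * (∑ s, c' r s • f' s)
        - (∑ s, c' r s • f' s) * (∑ q, c p q • f q)) * iA (e' r * e p) := by
  have hv1 : v = ∑ q, iA (∑ p, c p q • e p) * iB (f q) := by
    rw [hv]
    exact repr_left e f c
  have hv2 : v = ∑ p, iB (∑ q, c p q • f q) * iA (e p) := by
    rw [hv]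
    exact repr_right T e f c
  have hw1 : w = ∑ s, iA (∑ r, c' r s • e' r) * iB (f' s) := by
    rw [hw]
    exact repr_left e' f' c'
  have hw2 : w = ∑ r, iB (∑ s, c' r s • f' s) * iA (e' r) := by
    rw [hw]
    exact repr_right T e' f' c'
  have h1 := mul_IdentP T (fun q => ∑ p, c p q • e p) f (fun s => ∑ r, c' r s • e' r) f' hv1 hw1
  have h2 := mul_IdentP' T (fun p => ∑ q, c p q • f q) e (fun r => ∑ s, c' r s • f' s) e'
    hv2 hw2
  have h3 := mid_left_IdentP (fun q => ∑ p, c p q • e p) f (fun s => ∑ r, c' r s • e' r) f' hv1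
  have h4 := mid_right_IdentP T (fun p => ∑ q, c p q • f q) e (fun r => ∑ s, c' r s • f' s) e'
    hv2
  have h5 : ∑ s, iA (∑ r, c' r s • e' r) * v * iB (f' s)
      = ∑ r, iA (e' r) * v * iB (∑ s, c' r s • f' s) := by
    have h6 : ∀ s, iA (∑ r, c' r s • e' r) * v * iB (f' s)
        = ∑ r, c' r s • (iA (e' r) * v * iB (f' s)) := by
      intro s
      rw [map_sum, Finset.sum_mul, Finset.sum_mul]
      refine Finset.sum_congr rfl fun r _ => ?_
      rw [map_smul, smul_mul_assoc, smul_mul_assoc]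
    have h7 : ∀ r, iA (e' r) * v * iB (∑ s, c' r s • f' s)
        = ∑ s, c' r s • (iA (e' r) * v * iB (f' s)) := by
      intro r
      rw [map_sum, Finset.mul_sum]
      refine Finset.sum_congr rfl fun s _ => ?_
      rw [map_smul, mul_smul_comm]
    rw [Finset.sum_congr rfl fun s _ => h6 s, Finset.sum_congr rfl fun r _ => h7 r,
      Finset.sum_comm]
  have h8 : (∑ q, ∑ s, iA ((∑ p, c p q • e p) * (∑ r, c' r s • e' r)
        - (∑ r, c' r s • e' r) * (∑ p, c p q • e p)) * iB (f q * f' s))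
      = (∑ q, ∑ s, iA ((∑ p, c p q • e p) * (∑ r, c' r s • e' r)) * iB (f q * f' s))
        - ∑ q, ∑ s, iA ((∑ r, c' r s • e' r) * (∑ p, c p q • e p)) * iB (f q * f' s) := by
    rw [← Finset.sum_sub_distrib]
    refine Finset.sum_congr rfl fun q _ => ?_
    rw [← Finset.sum_sub_distrib]
    refine Finset.sum_congr rfl fun r _ => ?_
    rw [map_sub, sub_mul]
  have h9 : (∑ p, ∑ r, iB ((∑ q, c p q • f q) * (∑ s, c' r s • f' s)
        - (∑ s, c' r s • f' s) * (∑ q, c p q • f q)) * iA (e' r * e p))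
      = (∑ p, ∑ r, iB ((∑ q, c p q • f q) * (∑ s, c' r s • f' s)) * iA (e' r * e p))
        - ∑ p, ∑ r, iB ((∑ s, c' r s • f' s) * (∑ q, c p q • f q)) * iA (e' r * e p) := by
    rw [← Finset.sum_sub_distrib]
    refine Finset.sum_congr rfl fun q _ => ?_
    rw [← Finset.sum_sub_distrib]
    refine Finset.sum_congr rfl fun r _ => ?_
    rw [map_sub, sub_mul]
  rw [h8, h9, ← h1, ← h2, h3, h4, h5]
  abel

end Pool.McT
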