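import Pool.Agent.McT.P.Contr

/-! Several functionals at once, and the factorisation of the coefficient matrices. -/

set_option autoImplicit false

namespace Pool.McT

variable {A : Type*} [CStarAlgebra A] {τ : A →ₗ[ℂ] ℂ}

/-- A contraction from `ℓ²(ν)` to `ℓ²(κ)`. -/
def IsContrF {κ ν : Type} [Fintype κ] [Fintype ν] (O : κ → ν → ℂ) : Prop :=
  ∀ t : ν → ℂ, ∑ i, ‖∑ j, O i j * t j‖ ^ 2 ≤ ∑ j, ‖t j‖ ^ 2

private theorem Multi_contr {κ : Type} [Fintype κ] {n : ℕ} {O : κ → Fin n → ℂ}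
    (hO : IsContrF O) : IsContr fun (i : Fin (Fintype.card κ)) j =>
      O ((Fintype.equivFin κ).symm i) j := by
  intro t
  refine le_trans (le_of_eq ?_) (hO t)
  exact Equiv.sum_comp (Fintype.equivFin κ).symm fun r => ‖∑ j, O r j * t j‖ ^ 2

private theorem Multi_N (hτ : IsTr τ) (hf : ∀ x : A, N τ x = 0 → x = 0) {κ : Type}
    [Fintype κ] {n : ℕ} {O : κ → Fin n → ℂ} (hO : IsContrF O) (a : Fin n → A) :
    ∑ r, N τ (∑ j, O r j • a j) ≤ ∑ j, N τ (a j) := by
  refine le_trans (le_of_eq ?_) (N_contr_le hτ hf (Multi_contr hO) a)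
  exact (Equiv.sum_comp (Fintype.equivFin κ).symm fun r => N τ (∑ j, O r j • a j)).symm

private theorem Multi_S (hτ : IsTr τ) (hf : ∀ x : A, N τ x = 0 → x = 0) (F : Finset A)
    {κ : Type} [Fintype κ] {n : ℕ} {O : κ → Fin n → ℂ} (hO : IsContrF O) (a : Fin n → A) :
    ∑ r, S τ F (∑ j, O r j • a j) ≤ ∑ j, S τ F (a j) := by
  refine le_trans (le_of_eq ?_) (S_contr_le hτ hf F (Multi_contr hO) a)
  exact (Equiv.sum_comp (Fintype.equivFin κ).symm fun r => S τ F (∑ j, O r j • a j)).symm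

private theorem Multi_tau_sum {m : ℕ} (t : Fin m → ℂ) (e : Fin m → A) (G : A) :
    τ (star (∑ p, t p • e p) * G) = ∑ p, starRingEnd ℂ (t p) * τ (star (e p) * G) := by
  rw [star_sum, Finset.sum_mul, map_sum]
  refine Finset.sum_congr rfl fun p _ => ?_
  rw [star_smul, smul_mul_assoc, map_smul, smul_eq_mul]
  rfl

private theorem Multi_tau_orth {m : ℕ} (t : Fin m → ℂ) (e : Fin m → A)
    (he : ∀ p q, τ (star (e p) * e q) = if p = q then 1 else 0) (q : Fin m) :
    τ (star (e q) * ∑ p, t p • e p) = t q := by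
  rw [Finset.mul_sum, map_sum]
  have h1 : ∀ p, τ (star (e q) * t p • e p) = if q = p then t p else 0 := by
    intro p
    rw [mul_smul_comm, map_smul, he, smul_eq_mul]
    split_ifs <;> simp
  simp only [h1]
  rw [Finset.sum_ite_eq, if_pos (Finset.mem_univ q)]

private theorem Multi_re_sum {m : ℕ} (t : Fin m → ℂ) :
    (∑ p, starRingEnd ℂ (t p) * t p).re = ∑ p, ‖t p‖ ^ 2 := by
  rw [Complex.re_sum]
  refine Finset.sum_congr rfl fun p _ => ?_
  rw [← Complex.normSq_eq_conj_mul_self, Complex.ofReal_re, Complex.normSq_eq_norm_sq]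

private theorem Multi_N_sum {m : ℕ} (t : Fin m → ℂ) (e : Fin m → A)
    (he : ∀ p q, τ (star (e p) * e q) = if p = q then 1 else 0) :
    N τ (∑ p, t p • e p) = ∑ p, ‖t p‖ ^ 2 := by
  unfold N
  rw [Multi_tau_sum]
  have h1 : ∀ q, τ (star (e q) * ∑ p, t p • e p) = t q := Multi_tau_orth t e he
  simp only [h1]
  exact Multi_re_sum t

private theorem Multi_bessel (hτ : IsTr τ) {m : ℕ} (e : Fin m → A)
    (he : ∀ p q, τ (star (e p) * e q) = if p = q then 1 else 0) (G : A) :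
    ∑ p, ‖τ (star (e p) * G)‖ ^ 2 ≤ N τ G := by
  obtain ⟨c, hc⟩ : ∃ c : Fin m → ℂ, c = fun p => τ (star (e p) * G) := ⟨_, rfl⟩
  obtain ⟨P, hP⟩ : ∃ P : A, P = ∑ p, c p • e p := ⟨_, rfl⟩
  have h0 := N_nonneg hτ (G - P)
  have h1 : τ (star P * G) = ∑ p, starRingEnd ℂ (c p) * c p := by
    rw [hP, Multi_tau_sum]
    simp only [hc]
  have h2 : N τ P = ∑ p, ‖c p‖ ^ 2 := by
    rw [hP]
    exact Multi_N_sum c e he
  have h3 : star (G - P) * (G - P) = star G * G - star P * G - star (star P * G) +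
      star P * P := by
    rw [star_sub, star_mul, star_star]
    noncomm_ring
  have h4 : N τ (G - P) = N τ G - 2 * (τ (star P * G)).re + N τ P := by
    unfold N
    rw [h3]
    simp only [map_add, map_sub, Complex.add_re, Complex.sub_re]
    rw [tau_star hτ, Complex.conj_re]
    ring
  rw [h4, h1, Multi_re_sum, h2] at h0
  simp only [hc] at h0
  linarith

/-- `Re τ (x y) ≤ c` if `N x ≤ c` and `N y ≤ c`. -/
private theorem Multi_re_le (hτ : IsTr τ) {x y : A} {c : ℝ} (hx : N τ x ≤ c)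
    (hy : N τ y ≤ c) : (τ (x * y)).re ≤ c := by
  have hc : 0 ≤ c := (N_nonneg hτ x).trans hx
  have h1 := tau_mul_sq_le hτ x y
  have h2 : N τ x * N τ y ≤ c * c := mul_le_mul hx hy (N_nonneg hτ y) hc
  have h3 : ‖τ (x * y)‖ ≤ c := by
    refine abs_le_of_sq_le_sq' ?_ hc |>.2
    rw [pow_two c]
    exact h1.trans h2
  exact (Complex.re_le_norm _).trans h3

/-- `fun_comm` for every `r` with `x = ∑ i, W r i • a i`, `star y = ∑ j, V r j • a' j`, then
the sums of `N` and `S` over `r` as in `N_contr_le`, `S_contr_le` (transport `κ` to `Fin`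
with `Fintype.equivFin`, or copy their proofs). -/
theorem multi_bound (hτ : IsTr τ) (hf : ∀ x : A, N τ x = 0 → x = 0) {F : Finset A}
    {α Λ : ℝ} (hα : 0 ≤ α) (hΛ : 0 ≤ Λ) (hAD : AD τ F α Λ) {κ : Type} [Fintype κ]
    (φ : κ → (A →ₗ[ℂ] ℂ)) (hφ : ∀ r x y, ‖φ r (x * y)‖ ^ 2 ≤ N τ x * N τ y) {η : ℝ}
    (hη : 0 < η) {m n : ℕ} {W : κ → Fin m → ℂ} {V : κ → Fin n → ℂ} (hW : IsContrF W)
    (hV : IsContrF V) (a : Fin m → A) (a' : Fin n → A) :
    ‖∑ r, φ r ((∑ i, W r i • a i) * (∑ j, V r j • a' j)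
        - (∑ j, V r j • a' j) * (∑ i, W r i • a i))‖ ≤
      2 * (η + α / η) * (∑ i, N τ (a i) + ∑ j, N τ (a' j))
        + 2 * (Λ / η) * (∑ i, S τ F (a i) + ∑ j, S τ F (a' j)) := by
  obtain ⟨x, hx⟩ : ∃ x : κ → A, x = fun r => ∑ i, W r i • a i := ⟨_, rfl⟩
  obtain ⟨y, hy⟩ : ∃ y : κ → A, y = fun r => ∑ j, V r j • a' j := ⟨_, rfl⟩
  have hSs : ∀ x : A, S τ F (star x) = S τ F x := by
    intro x
    unfold S
    refine Finset.sum_congr rfl fun u _ => ?_
    rw [star_star, add_comm]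
  have h2 : ∀ r, ‖φ r (x r * y r - y r * x r)‖ ≤
      2 * (η + α / η) * (N τ (x r) + N τ (y r)) +
        2 * (Λ / η) * (S τ F (x r) + S τ F (y r)) := by
    intro r
    have h3 := fun_comm hτ hα hΛ hAD (φ r) (hφ r) hη (y r) (star (x r))
    rw [N_star hτ, hSs, star_star, add_comm (N τ (y r)), add_comm (S τ F (y r))] at h3
    exact h3
  have hN : ∑ r, N τ (x r) ≤ ∑ j, N τ (a j) := by
    rw [hx]
    exact Multi_N hτ hf hW a
  have hS : ∑ r, S τ F (x r) ≤ ∑ j, S τ F (a j) := by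
    rw [hx]
    exact Multi_S hτ hf F hW a
  have hN' : ∑ r, N τ (y r) ≤ ∑ j, N τ (a' j) := by
    rw [hy]
    exact Multi_N hτ hf hV a'
  have hS' : ∑ r, S τ F (y r) ≤ ∑ j, S τ F (a' j) := by
    rw [hy]
    exact Multi_S hτ hf F hV a'
  have hc1 : 0 ≤ 2 * (η + α / η) := by positivity
  have hc2 : 0 ≤ 2 * (Λ / η) := by positivity
  have hxy : ∑ r, φ r ((∑ i, W r i • a i) * (∑ j, V r j • a' j)
      - (∑ j, V r j • a' j) * (∑ i, W r i • a i)) = ∑ r, φ r (x r * y r - y r * x r) := by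
    rw [hx, hy]
  rw [hxy]
  calc ‖∑ r, φ r (x r * y r - y r * x r)‖
      ≤ ∑ r, ‖φ r (x r * y r - y r * x r)‖ := norm_sum_le _ _
    _ ≤ ∑ r, (2 * (η + α / η) * (N τ (x r) + N τ (y r)) +
        2 * (Λ / η) * (S τ F (x r) + S τ F (y r))) := Finset.sum_le_sum fun i _ => h2 i
    _ = 2 * (η + α / η) * (∑ r, N τ (x r) + ∑ r, N τ (y r)) +
        2 * (Λ / η) * (∑ r, S τ F (x r) + ∑ r, S τ F (y r)) := by
      rw [Finset.sum_add_distrib, ← Finset.mul_sum, ← Finset.mul_sum, Finset.sum_add_distrib,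
        Finset.sum_add_distrib]
    _ ≤ _ := by gcongr

/-- For every `l` let `h l r` be an orthonormal system with
`f' s * α l = ∑ r, V l r s • h l r` (`gram_schmidt`), and `W l r q = τ (β l * f q * h l r)`;
`κ` is the type of the pairs `(l, r)`. For `G = ∑ t s • f' s`:
`∑_{l,r} ‖∑ s, V t‖² = ∑_l N (G * α l) = τ (G* G ∑ α α*) ≤ N G`, for `F = ∑ t q • f q`:
`∑_{l,r} ‖τ (β l * F * h l r)‖² ≤ ∑_l N (β l * F) ≤ N F` (Bessel). -/
theorem exists_factor (hτ : IsTr τ) (hf : ∀ x : A, N τ x = 0 → x = 0) {m n R : ℕ}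
    (f : Fin m → A) (f' : Fin n → A)
    (ho : ∀ p q, τ (star (f p) * f q) = if p = q then 1 else 0)
    (ho' : ∀ p q, τ (star (f' p) * f' q) = if p = q then 1 else 0) (α β : Fin R → A)
    (hα : ‖∑ l, α l * star (α l)‖ ≤ 1) (hβ : ‖∑ l, star (β l) * β l‖ ≤ 1) :
    ∃ (κ : Type) (_ : Fintype κ) (_ : DecidableEq κ) (l : κ → Fin R) (W : κ → Fin m → ℂ)
      (V : κ → Fin n → ℂ), IsContrF W ∧ IsContrF V ∧
      ∀ j q s, τ (f q * f' s * (α j * β j)) =
        ∑ r ∈ Finset.univ.filter (fun r => l r = j), W r q * V r s := by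
  choose M h c _ ho'' hc using fun l : Fin R => gram_schmidt hτ hf n fun s => f' s * α l
  refine ⟨(l : Fin R) × Fin (M l), inferInstance, inferInstance, Sigma.fst,
    fun r q => τ (β r.1 * f q * h r.1 r.2), fun r s => c r.1 s r.2, ?_, ?_, ?_⟩
  · intro t
    obtain ⟨G, hG⟩ : ∃ G : A, G = ∑ q, t q • f q := ⟨_, rfl⟩
    have h1 : ∀ r : (l : Fin R) × Fin (M l), ∑ q, τ (β r.1 * f q * h r.1 r.2) * t q =
        τ (star (star (h r.1 r.2)) * (β r.1 * G)) := by
      intro r
      rw [star_star, hτ.comm, hG, Finset.mul_sum, Finset.sum_mul, map_sum]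
      refine Finset.sum_congr rfl fun q _ => ?_
      rw [mul_smul_comm, smul_mul_assoc, map_smul, smul_eq_mul, mul_comm]
    simp only [h1]
    rw [Fintype.sum_sigma]
    have h2 : ∀ l, ∑ p : Fin (M l), ‖τ (star (star (h l p)) * (β l * G))‖ ^ 2 ≤
        N τ (β l * G) := fun l =>
      Multi_bessel hτ (fun p => star (h l p)) (fun p q => by
        rw [star_star, hτ.comm, ho'']
        simp only [eq_comm]) (β l * G)
    refine (Finset.sum_le_sum fun l _ => h2 l).trans ?_
    have h3 : ∑ l, N τ (β l * G) = (τ (star G * ((∑ l, star (β l) * β l) * G))).re := by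
      rw [Finset.sum_mul, Finset.mul_sum, map_sum, Complex.re_sum]
      refine Finset.sum_congr rfl fun l _ => ?_
      unfold N
      rw [star_mul]
      congr 2
      noncomm_ring
    have h6 : N τ G = ∑ q, ‖t q‖ ^ 2 := by
      rw [hG]
      exact Multi_N_sum t f ho
    rw [h3, ← h6]
    refine Multi_re_le hτ (le_of_eq (N_star hτ G)) ?_
    refine (N_mul_le_left hτ _ G).trans ?_
    exact mul_le_of_le_one_left (N_nonneg hτ G) (pow_le_one₀ (norm_nonneg _) hβ)
  · intro t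
    obtain ⟨G, hG⟩ : ∃ G : A, G = ∑ s, t s • f' s := ⟨_, rfl⟩
    have h1 : ∀ l, G * α l = ∑ p, (∑ s, c l s p * t s) • h l p := by
      intro l
      rw [hG, Finset.sum_mul]
      have e1 : ∀ s, t s • f' s * α l = ∑ p, (c l s p * t s) • h l p := by
        intro s
        rw [smul_mul_assoc, hc l s, Finset.smul_sum]
        refine Finset.sum_congr rfl fun p _ => ?_
        rw [smul_smul, mul_comm]
      simp only [e1]
      rw [Finset.sum_comm]
      refine Finset.sum_congr rfl fun p _ => ?_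
      rw [Finset.sum_smul]
    rw [Fintype.sum_sigma]
    have h2 : ∀ l, ∑ p : Fin (M l), ‖∑ s, c l s p * t s‖ ^ 2 = N τ (G * α l) := by
      intro l
      rw [h1]
      exact (Multi_N_sum _ (h l) (ho'' l)).symm
    simp only [h2]
    have h3 : ∑ l, N τ (G * α l) = (τ (star G * (G * ∑ l, α l * star (α l)))).re := by
      rw [Finset.mul_sum, Finset.mul_sum, map_sum, Complex.re_sum]
      refine Finset.sum_congr rfl fun l _ => ?_
      have e1 : G * α l * (star (α l) * star G) = (G * (α l * star (α l))) * star G := by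
        noncomm_ring
      have e2 : τ (star (α l) * star G * (G * α l)) =
          τ (star G * (G * (α l * star (α l)))) := by
        rw [hτ.comm, e1, hτ.comm]
      unfold N
      rw [star_mul, e2]
    have h6 : N τ G = ∑ q, ‖t q‖ ^ 2 := by
      rw [hG]
      exact Multi_N_sum t f' ho'
    rw [h3, ← h6]
    refine Multi_re_le hτ (le_of_eq (N_star hτ G)) ?_
    refine (N_mul_le_right hτ G _).trans ?_
    exact mul_le_of_le_one_left (N_nonneg hτ G) (pow_le_one₀ (norm_nonneg _) hα)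
  · intro j q s
    have h1 : ∑ r ∈ Finset.univ.filter (fun r : (l : Fin R) × Fin (M l) => r.1 = j),
        τ (β r.1 * f q * h r.1 r.2) * c r.1 s r.2 =
        ∑ p : Fin (M j), τ (β j * f q * h j p) * c j s p := by
      rw [Finset.sum_filter, Fintype.sum_sigma]
      rw [Finset.sum_eq_single j]
      · simp
      · intro b _ hb
        simp [hb]
      · intro hb
        exact absurd (Finset.mem_univ j) hb
    rw [h1]
    have h2 : τ (f q * f' s * (α j * β j)) = τ (β j * f q * (f' s * α j)) := by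
      have e1 : f q * f' s * (α j * β j) = (f q * (f' s * α j)) * β j := by noncomm_ring
      have e2 : β j * f q * (f' s * α j) = β j * (f q * (f' s * α j)) := by noncomm_ring
      rw [e1, e2, hτ.comm]
    rw [h2, hc j s, Finset.mul_sum, map_sum]
    refine Finset.sum_congr rfl fun p _ => ?_
    rw [mul_smul_comm, map_smul, smul_eq_mul, mul_comm]

end Pool.McT
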