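import Pool.Agent.McT.P.MainZ

/-! One factor which is not McDuff, tensored with an arbitrary tracial algebra: commutators of
elements which almost commute with `A` are almost orthogonal to `A`. -/

set_option autoImplicit false

namespace Pool.McT

open Filter Topology

variable {A B D : Type*} [CStarAlgebra A] [CStarAlgebra B] [CStarAlgebra D]
  {τA : A →ₗ[ℂ] ℂ} {τB : B →ₗ[ℂ] ℂ} {τD : D →ₗ[ℂ] ℂ} {iA : A →⋆ₐ[ℂ] D} {iB : B →⋆ₐ[ℂ] D}

/-- The commutators of `f` and `f*` with `iA u`, `u ∈ F`. -/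
noncomputable def SA (τD : D →ₗ[ℂ] ℂ) (iA : A →⋆ₐ[ℂ] D) (F : Finset A) (f : D) : ℝ :=
  ∑ u ∈ F, (N τD (cm f (iA u)) + N τD (cm (star f) (iA u)))

theorem one_alg (T : Tens τA τB τD iA iB) (hfA : ∀ x : A, N τA x = 0 → x = 0)
    (hfB : ∀ x : B, N τB x = 0 → x = 0) {FA : Finset A} {α Λ : ℝ}
    (hα : 0 ≤ α) (hΛ : 0 ≤ Λ) (hA : AD τA FA α Λ) {k l : ℕ}
    (a : Fin k → A) (b : Fin k → B) (a' : Fin l → A) (b' : Fin l → B) {X : A}
    (hX : ‖X‖ ≤ 1) {η : ℝ} (hη : 0 < η) (f g : D)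
    (hf : f = ∑ i, iA (a i) * iB (b i)) (hg : g = ∑ i, iA (a' i) * iB (b' i)) :
    ‖τD ((f * g - g * f) * iA X)‖ ≤ 2 * (η + α / η) * (N τD f + N τD g)
      + 2 * (Λ / η) * (SA τD iA FA f + SA τD iA FA g) := by
  obtain ⟨m, n, e, h, c, -, -, he, hh, hc⟩ := exists_repr T hfA hfB k a b
  obtain ⟨m', n', e', h', c', -, -, he', hh', hc'⟩ := exists_repr T hfA hfB l a' b'
  rw [← hf] at hc
  rw [← hg] at hc'
  have h1 := comm_ident2 T e h c e' h' c' f g hc hc'
  have f1 : f = ∑ q, iA (∑ p, c p q • e p) * iB (h q) := hc.trans (repr_left e h c)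
  have g1 : g = ∑ q, iA (∑ p, c' p q • e' p) * iB (h' q) := hc'.trans (repr_left e' h' c')
  have nf1 : ∑ q, N τA (∑ p, c p q • e p) = N τD f := by
    rw [← N_sum_tens T _ _ hh, ← f1]
  have ng1 : ∑ q, N τA (∑ p, c' p q • e' p) = N τD g := by
    rw [← N_sum_tens T _ _ hh', ← g1]
  have sf1 : ∑ q, S τA FA (∑ p, c p q • e p) = SA τD iA FA f := by
    rw [← S_sum_tens T _ _ hh FA, ← f1]
    rfl
  have sg1 : ∑ q, S τA FA (∑ p, c' p q • e' p) = SA τD iA FA g := by
    rw [← S_sum_tens T _ _ hh' FA, ← g1]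
    rfl
  have hz : Sand iA iB (iA X) := by
    refine ⟨1, fun _ => X, fun _ => 1, fun _ => 1, fun _ => hX, ?_, ?_, ?_⟩
    · rcases subsingleton_or_nontrivial B with h | h
      · simp [Subsingleton.elim (1 : B) 0]
      · simp
    · rcases subsingleton_or_nontrivial B with h | h
      · simp [Subsingleton.elim (1 : B) 0]
      · simp
    · simp
  have b1 := half_ProdZ T hfA hfB hα hΛ hA h h' hh hh'
    (fun q => ∑ p, c p q • e p) (fun s => ∑ r, c' r s • e' r) hz hη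
  rw [nf1, ng1, sf1, sg1] at b1
  have h0 : ∀ (u v : B) (x : A), τD (iB (u * v - v * u) * iA x * iA X) = 0 := by
    intro u v x
    rw [mul_assoc, ← map_mul, ← T.comm, T.tau, map_sub, T.trB.comm u v, sub_self, mul_zero]
  have h2 : τD ((f * g - g * f) * iA X) =
      ∑ q, ∑ s, τD (iA ((∑ p, c p q • e p) * (∑ r, c' r s • e' r)
          - (∑ r, c' r s • e' r) * (∑ p, c p q • e p)) * iB (h q * h' s) * iA X) := by
    rw [h1, add_mul, map_add, Finset.sum_mul, Finset.sum_mul, map_sum, map_sum]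
    have h3 : ∀ p, τD ((∑ r, iB ((∑ q, c p q • h q) * (∑ s, c' r s • h' s)
          - (∑ s, c' r s • h' s) * (∑ q, c p q • h q)) * iA (e' r * e p)) * iA X) = 0 := by
      intro p
      rw [Finset.sum_mul, map_sum]
      exact Finset.sum_eq_zero fun r _ => h0 _ _ _
    rw [Finset.sum_eq_zero fun p _ => h3 p, add_zero]
    refine Finset.sum_congr rfl fun q _ => ?_
    rw [Finset.sum_mul, map_sum]
  rw [h2]
  exact b1

theorem one_bound (T : Tens τA τB τD iA iB) (hd : Dense2 τD iA iB)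
    (hfA : ∀ x : A, N τA x = 0 → x = 0) (hfB : ∀ x : B, N τB x = 0 → x = 0) {FA : Finset A}
    {α Λ : ℝ} (hα : 0 ≤ α) (hΛ : 0 ≤ Λ) (hA : AD τA FA α Λ) {X : A} (hX : ‖X‖ ≤ 1) {η : ℝ}
    (hη : 0 < η) (f g : D) :
    ‖τD ((f * g - g * f) * iA X)‖ ≤ 2 * (η + α / η) * (N τD f + N τD g)
      + 2 * (Λ / η) * (SA τD iA FA f + SA τD iA FA g) := by
  obtain ⟨k, a, b, hf⟩ := tapp_DenseZ T.trD hd f
  obtain ⟨l, a', b', hg⟩ := tapp_DenseZ T.trD hd g
  have hle := fun n => one_alg T hfA hfB hα hΛ hA (a n) (b n) (a' n) (b' n) hX hη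
    _ _ rfl rfl
  have hS : ∀ {x : ℕ → D} {y : D}, Tendsto (fun n => N τD (x n - y)) atTop (𝓝 0) →
      Tendsto (fun n => SA τD iA FA (x n)) atTop (𝓝 (SA τD iA FA y)) := by
    intro x y h
    unfold SA
    exact tendsto_finsetSum _ fun u _ => (tcm_DenseZ T.trD h (iA u)).add
      (tcm_DenseZ T.trD (tstar_DenseZ T.trD h) (iA u))
  have hL : Tendsto (fun n => ‖τD (((∑ i, iA (a n i) * iB (b n i)) *
      (∑ i, iA (a' n i) * iB (b' n i)) - (∑ i, iA (a' n i) * iB (b' n i)) *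
      (∑ i, iA (a n i) * iB (b n i))) * iA X)‖) atTop
      (𝓝 ‖τD ((f * g - g * f) * iA X)‖) := by
    have h1 := ttau_DenseZ T.trD hf (tmul_DenseZ T.trD hg (iA X))
    have h2 := ttau_DenseZ T.trD hg (tmul_DenseZ T.trD hf (iA X))
    have h3 := (h1.sub h2).norm
    have e : ∀ p q r : D, τD (p * (q * r)) - τD (q * (p * r)) = τD ((p * q - q * p) * r) := by
      intro p q r
      rw [← map_sub]
      congr 1
      noncomm_ring
    simp only [e] at h3
    exact h3
  have hR := (((tN_DenseZ T.trD hf).add (tN_DenseZ T.trD hg)).const_mul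
    (2 * (η + α / η))).add (((hS hf).add (hS hg)).const_mul (2 * (Λ / η)))
  exact le_of_tendsto_of_tendsto' hL hR hle

/-- `A` is a finite factor which is not McDuff, `B` is arbitrary. -/
theorem one_factor (T : Tens τA τB τD iA iB) (hd : Dense2 τD iA iB) (hA : Fac τA)
    (hfB : ∀ x : B, N τB x = 0 → x = 0) (sA : Sep τA) (mA : ¬ McDuff τA) {δ : ℝ}
    (hδ : 0 < δ) :
    ∃ (F : Finset A) (C : ℝ), 0 ≤ C ∧ ∀ (f g : D) (X : A), ‖X‖ ≤ 1 →
      ‖τD ((f * g - g * f) * iA X)‖ ≤ δ * (N τD f + N τD g)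
        + C * (SA τD iA F f + SA τD iA F g) := by
  obtain ⟨FA, κ, hκ, hNA⟩ := exists_NM hA sA mA
  obtain ⟨n, hn⟩ := exists_pow_lt_of_lt_one (show (0 : ℝ) < δ / 34 by positivity)
    (show (1 / 2 : ℝ) < 1 by norm_num)
  set J : ℕ := max n 3 with hJ
  have hJ3 : 3 ≤ J := le_max_right _ _
  set η : ℝ := (1 / 2 : ℝ) ^ J with hη
  have hη0 : 0 < η := by positivity
  have hηδ : 34 * η ≤ δ := by
    have h1 : η ≤ (1 / 2 : ℝ) ^ n :=
      pow_le_pow_of_le_one (by norm_num) (by norm_num) (le_max_left _ _)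
    linarith
  have h4 : (1 / 4 : ℝ) ^ J = η * η := by
    rw [hη, ← mul_pow]
    norm_num
  have hAD := absdiff hA.tr hκ hNA hJ3
  refine ⟨FA, 2 * (520 * κ * J / η), by positivity, fun f g X hX => ?_⟩
  have h5 := one_bound T hd hA.faithful hfB (by positivity) (by positivity) hAD hX hη0 f g
  refine h5.trans (add_le_add (mul_le_mul_of_nonneg_right ?_
    (add_nonneg (N_nonneg T.trD f) (N_nonneg T.trD g))) le_rfl)
  rw [h4]
  have h6 : 16 * (η * η) / η = 16 * η := by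
    field_simp
  rw [h6]
  linarith

theorem N_iA_OneSided (T : Tens τA τB τD iA iB) (x : A) :
    N τD (iA x) = N τA x * (τB 1).re := by
  have h1 : star (iA x) * iA x = iA (star x * x) * iB 1 := by
    rw [map_one, mul_one, map_mul, map_star]
  have h2 := T.trA.real x
  unfold N
  rw [h1, T.tau, Complex.mul_re, h2, zero_mul, sub_zero]

theorem SA_tendsto_OneSided (hτ : IsTr τD) {f : ℕ → D}
    (hf : ∀ u : A, Tendsto (fun n => N τD (cm (f n) (iA u))) atTop (𝓝 0)) (F : Finset A) :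
    Tendsto (fun n => SA τD iA F (f n)) atTop (𝓝 0) := by
  unfold SA
  have h1 : Tendsto (fun n => ∑ u ∈ F, (N τD (cm (f n) (iA u)) +
      N τD (cm (star (f n)) (iA u)))) atTop (𝓝 (∑ _u ∈ F, (0 + 0 : ℝ))) := by
    refine tendsto_finsetSum _ fun u _ => (hf u).add ?_
    have h2 := hf (star u)
    refine h2.congr fun n => ?_
    rw [N_cm_star hτ, map_star]
  simpa using h1

/-- The expectation of `[f, g]` on `A` vanishes asymptotically if `f n`, `g n` are bounded in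
2-norm and commute asymptotically with `A`. -/
theorem one_test (T : Tens τA τB τD iA iB) (hd : Dense2 τD iA iB) (hA : Fac τA)
    (hfB : ∀ x : B, N τB x = 0 → x = 0) (sA : Sep τA) (mA : ¬ McDuff τA)
    {f g : ℕ → D} {X : ℕ → A} {Kf Kg KX : ℝ} (hKf : ∀ n, N τD (f n) ≤ Kf)
    (hKg : ∀ n, N τD (g n) ≤ Kg) (hX : ∀ n, ‖X n‖ ≤ KX)
    (hf : ∀ u : A, Tendsto (fun n => N τD (cm (f n) (iA u))) atTop (𝓝 0))
    (hg : ∀ u : A, Tendsto (fun n => N τD (cm (g n) (iA u))) atTop (𝓝 0)) :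
    Tendsto (fun n => τD ((f n * g n - g n * f n) * iA (X n))) atTop (𝓝 0) := by
  have hKX0 : 0 ≤ KX := (norm_nonneg _).trans (hX 0)
  have hKf0 : 0 ≤ Kf := (N_nonneg T.trD _).trans (hKf 0)
  have hKg0 : 0 ≤ Kg := (N_nonneg T.trD _).trans (hKg 0)
  rw [Metric.tendsto_atTop]
  intro ε hε
  have hδ : 0 < ε / (2 * ((KX + 1) * (Kf + Kg + 1))) := by positivity
  obtain ⟨F, C, hC0, hC⟩ := one_factor T hd hA hfB sA mA hδ
  have h1 : Tendsto (fun n => (KX + 1) * (C * (SA τD iA F (f n) + SA τD iA F (g n)))) atTop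
      (𝓝 0) := by
    have h2 := (((SA_tendsto_OneSided T.trD hf F).add
      (SA_tendsto_OneSided T.trD hg F)).const_mul C).const_mul (KX + 1)
    rwa [add_zero, mul_zero, mul_zero] at h2
  obtain ⟨n₀, hn₀⟩ := (Metric.tendsto_atTop.1 h1) (ε / 2) (by positivity)
  refine ⟨n₀, fun n hn => ?_⟩
  have h3 := hn₀ n hn
  rw [Real.dist_eq, sub_zero] at h3
  have h4 := (le_abs_self _).trans_lt h3
  rw [dist_eq_norm, sub_zero]
  have hY : ‖((KX + 1 : ℝ) : ℂ)⁻¹ • X n‖ ≤ 1 := by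
    rw [norm_smul, norm_inv, Complex.norm_real, Real.norm_eq_abs, abs_of_pos (by linarith),
      inv_mul_le_iff₀ (by linarith)]
    have := hX n
    linarith
  have h5 := hC (f n) (g n) _ hY
  have hne : ((KX + 1 : ℝ) : ℂ) ≠ 0 := by
    rw [Ne, Complex.ofReal_eq_zero]
    linarith
  have h6 : τD ((f n * g n - g n * f n) * iA (X n)) = ((KX + 1 : ℝ) : ℂ) *
      τD ((f n * g n - g n * f n) * iA (((KX + 1 : ℝ) : ℂ)⁻¹ • X n)) := by
    rw [map_smul, mul_smul_comm, map_smul, smul_eq_mul, ← mul_assoc, mul_inv_cancel₀ hne,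
      one_mul]
  rw [h6, norm_mul, Complex.norm_real, Real.norm_eq_abs, abs_of_pos (by linarith)]
  have h7 := mul_le_mul_of_nonneg_left h5 (show 0 ≤ KX + 1 by linarith)
  refine h7.trans_lt ?_
  have h8 : (KX + 1) * (ε / (2 * ((KX + 1) * (Kf + Kg + 1))) *
      (N τD (f n) + N τD (g n))) ≤ ε / 2 := by
    calc (KX + 1) * (ε / (2 * ((KX + 1) * (Kf + Kg + 1))) * (N τD (f n) + N τD (g n))) ≤
        (KX + 1) * (ε / (2 * ((KX + 1) * (Kf + Kg + 1))) * (Kf + Kg + 1)) := by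
          refine mul_le_mul_of_nonneg_left (mul_le_mul_of_nonneg_left ?_ hδ.le) (by linarith)
          have := hKf n
          have := hKg n
          linarith
      _ = ε / 2 := by
          field_simp
  have h9 : (KX + 1) * (ε / (2 * ((KX + 1) * (Kf + Kg + 1))) * (N τD (f n) + N τD (g n)) +
      C * (SA τD iA F (f n) + SA τD iA F (g n))) =
      (KX + 1) * (ε / (2 * ((KX + 1) * (Kf + Kg + 1))) * (N τD (f n) + N τD (g n))) +
      (KX + 1) * (C * (SA τD iA F (f n) + SA τD iA F (g n))) := by ring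
  rw [h9]
  linarith

/-- Sequences: if `f n` is bounded and commutes asymptotically with `A`, and `a n` is a central
sequence of `A`, then `[f n, a n] → 0`. -/
theorem one_seq (T : Tens τA τB τD iA iB) (hd : Dense2 τD iA iB) (hA : Fac τA)
    (hfB : ∀ x : B, N τB x = 0 → x = 0) (sA : Sep τA) (mA : ¬ McDuff τA)
    {f : ℕ → D} {a : ℕ → A} (hb : ∃ K : ℝ, ∀ n, ‖f n‖ ≤ K)
    (hf : ∀ u : A, Tendsto (fun n => N τD (cm (f n) (iA u))) atTop (𝓝 0))
    (ha : CentralSeq τA a) :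
    Tendsto (fun n => N τD (cm (f n) (iA (a n)))) atTop (𝓝 0) := by
  obtain ⟨K, hK⟩ := hb
  obtain ⟨L, hL⟩ := ha.1
  have hK0 : 0 ≤ K := (norm_nonneg _).trans (hK 0)
  have hL0 : 0 ≤ L := (norm_nonneg _).trans (hL 0)
  have hLi : ∀ n, ‖iA (a n)‖ ≤ L := fun n =>
    (NonUnitalStarAlgHom.norm_apply_le iA (a n)).trans (hL n)
  have hNf : ∀ n, N τD (f n) ≤ K ^ 2 * N τD 1 := by
    intro n
    have h1 := N_mul_le_left T.trD (f n) 1
    rw [mul_one] at h1
    exact h1.trans (mul_le_mul_of_nonneg_right (pow_le_pow_left₀ (norm_nonneg _) (hK n) 2)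
      (N_nonneg T.trD 1))
  have hNh : ∀ n, N τD (star (cm (f n) (iA (a n)))) ≤ 4 * L ^ 2 * (K ^ 2 * N τD 1) := by
    intro n
    rw [N_star T.trD]
    refine (N_cm_le_MainZ T.trD _ _).trans ?_
    have h1 : ‖iA (a n)‖ ^ 2 ≤ L ^ 2 := pow_le_pow_left₀ (norm_nonneg _) (hLi n) 2
    exact mul_le_mul (by linarith) (hNf n) (N_nonneg T.trD _) (by positivity)
  have hcm : ∀ u : A, Tendsto (fun n => N τD (cm (star (cm (f n) (iA (a n)))) (iA u))) atTop
      (𝓝 0) := by
    intro u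
    have h1 : Tendsto (fun n => 8 * L ^ 2 * N τD (cm (f n) (iA (star u))) +
        8 * K ^ 2 * (N τA (cm (a n) (star u)) * (τB 1).re)) atTop (𝓝 0) := by
      have h2 := ((hf (star u)).const_mul (8 * L ^ 2)).add
        (((ha.2 (star u)).mul_const (τB 1).re).const_mul (8 * K ^ 2))
      rwa [mul_zero, zero_mul, mul_zero, add_zero] at h2
    refine squeeze_zero (fun n => N_nonneg T.trD _) (fun n => ?_) h1
    rw [N_cm_star T.trD, ← map_star]
    have e : cm (cm (f n) (iA (a n))) (iA (star u)) =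
        cm (cm (f n) (iA (star u))) (iA (a n)) + cm (f n) (iA (cm (a n) (star u))) := by
      unfold cm
      rw [map_sub, map_mul, map_mul]
      noncomm_ring
    rw [e, ← N_iA_OneSided T]
    have a1 := N_add_le T.trD (cm (cm (f n) (iA (star u))) (iA (a n)))
      (cm (f n) (iA (cm (a n) (star u))))
    have a2 := N_cm_le_MainZ T.trD (cm (f n) (iA (star u))) (iA (a n))
    have a3 := N_cm_le'_MainZ T.trD (f n) (iA (cm (a n) (star u)))
    have a4 : ‖iA (a n)‖ ^ 2 ≤ L ^ 2 := pow_le_pow_left₀ (norm_nonneg _) (hLi n) 2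
    have a5 : ‖f n‖ ^ 2 ≤ K ^ 2 := pow_le_pow_left₀ (norm_nonneg _) (hK n) 2
    have a6 := mul_le_mul_of_nonneg_right a4 (N_nonneg T.trD (cm (f n) (iA (star u))))
    have a7 := mul_le_mul_of_nonneg_right a5 (N_nonneg T.trD (iA (cm (a n) (star u))))
    linarith
  have h1 := one_test T hd hA hfB sA mA hNh hNf hL hcm hf
  have h2 := (Complex.continuous_re.tendsto _).comp h1
  simp only [Complex.zero_re] at h2
  refine h2.congr fun n => ?_
  have h3 : τD (star (cm (f n) (iA (a n))) * cm (f n) (iA (a n))) =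
      τD ((star (cm (f n) (iA (a n))) * f n - f n * star (cm (f n) (iA (a n)))) *
        iA (a n)) := by
    set h := star (cm (f n) (iA (a n)))
    have e1 : h * cm (f n) (iA (a n)) = h * f n * iA (a n) - h * iA (a n) * f n := by
      unfold cm
      noncomm_ring
    have e2 : (h * f n - f n * h) * iA (a n) = h * f n * iA (a n) - f n * (h * iA (a n)) := by
      noncomm_ring
    rw [e1, e2, map_sub, map_sub, T.trD.comm (h * iA (a n)) (f n)]
  show (τD _).re = N τD _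
  unfold N
  rw [h3]

end Pool.McT
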