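import Pool.Agent.McT.P.Contr
import Pool.Agent.McT.P.IdentP

/-! The commutator of two elements tested against products `x ⊗ y`. -/

set_option autoImplicit false

namespace Pool.McT

variable {A B D : Type*} [CStarAlgebra A] [CStarAlgebra B] [CStarAlgebra D]
  {τA : A →ₗ[ℂ] ℂ} {τB : B →ₗ[ℂ] ℂ} {τD : D →ₗ[ℂ] ℂ} {iA : A →⋆ₐ[ℂ] D} {iB : B →⋆ₐ[ℂ] D}

/-- The commutators of `f` and `star f` with `iA u`, `u ∈ FA`, and `iB u`, `u ∈ FB`. -/
noncomputable def SS (τD : D →ₗ[ℂ] ℂ) (iA : A →⋆ₐ[ℂ] D) (iB : B →⋆ₐ[ℂ] D) (FA : Finset A)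
    (FB : Finset B) (f : D) : ℝ :=
  ∑ u ∈ FA, (N τD (cm f (iA u)) + N τD (cm (star f) (iA u)))
    + ∑ u ∈ FB, (N τD (cm f (iB u)) + N τD (cm (star f) (iB u)))

private theorem phi_right_Prod {τ : A →ₗ[ℂ] ℂ} (hτ : IsTr τ) {x : A} (hx : ‖x‖ ≤ 1) (a b : A) :
    ‖(τ ∘ₗ LinearMap.mulRight ℂ x) (a * b)‖ ^ 2 ≤ N τ a * N τ b := by
  have h1 : (τ ∘ₗ LinearMap.mulRight ℂ x) (a * b) = τ ((x * a) * b) := by
    show τ (a * b * x) = τ ((x * a) * b)
    rw [hτ.comm, mul_assoc]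
  rw [h1]
  have h2 := tau_mul_sq_le hτ (x * a) b
  have h3 := N_mul_le_left hτ x a
  have h4 : ‖x‖ ^ 2 ≤ 1 := pow_le_one₀ (norm_nonneg x) hx
  have h5 := N_nonneg hτ a
  have h6 := N_nonneg hτ b
  have h7 : N τ (x * a) ≤ N τ a := by nlinarith
  exact h2.trans (mul_le_mul_of_nonneg_right h7 h6)

private theorem prod_left_Prod (T : Tens τA τB τD iA iB) (a x : A) (b y : B) :
    τD (iA a * iB b * (iA x * iB y)) = τA (a * x) * τB (b * y) := by
  have e1 : iA a * iB b * (iA x * iB y) = iA (a * x) * iB (b * y) := by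
    rw [map_mul iA a x, map_mul iB b y, mul_assoc, ← mul_assoc (iB b), ← T.comm x b, mul_assoc,
      mul_assoc]
  rw [e1, T.tau]

private theorem prod_right_Prod (T : Tens τA τB τD iA iB) (a x : A) (b y : B) :
    τD (iB b * iA a * (iA x * iB y)) = τB (b * y) * τA (a * x) := by
  rw [← T.comm, prod_left_Prod T, mul_comm]

/-- `exists_repr` for both elements, `comm_ident2`, then
`τD (iA a * iB b * (iA x * iB y)) = τA (a * x) * τB (b * y)` and
`τD (iB b * iA a * (iA x * iB y)) = τB (b * y) * τA (a * x)`: two sums of the form of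
`bilin_bound`, one with `φ = τA (· x)` and `isContr_right`, the other with `φ = τB (· y)` and
`isContr_left` (`‖τ (a * b * x)‖² = ‖τ ((x * a) * b)‖² ≤ N a * N b`). The sums of `N` and `S`
are given by `N_sum_tens`, `S_sum_tens` for `T` and `T.symm`, `repr_left`, `repr_right`. -/
theorem prod_bound_alg (T : Tens τA τB τD iA iB) (hfA : ∀ x : A, N τA x = 0 → x = 0)
    (hfB : ∀ x : B, N τB x = 0 → x = 0) {FA : Finset A} {FB : Finset B} {α Λ : ℝ}
    (hα : 0 ≤ α) (hΛ : 0 ≤ Λ) (hA : AD τA FA α Λ) (hB : AD τB FB α Λ) {k l : ℕ}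
    (a : Fin k → A) (b : Fin k → B) (a' : Fin l → A) (b' : Fin l → B) {x : A} {y : B}
    (hx : ‖x‖ ≤ 1) (hy : ‖y‖ ≤ 1) {η : ℝ} (hη : 0 < η) (f g : D)
    (hf : f = ∑ i, iA (a i) * iB (b i)) (hg : g = ∑ i, iA (a' i) * iB (b' i)) :
    ‖τD ((f * g - g * f) * (iA x * iB y))‖ ≤ 4 * (η + α / η) * (N τD f + N τD g)
      + 2 * (Λ / η) * (SS τD iA iB FA FB f + SS τD iA iB FA FB g) := by
  obtain ⟨m, n, e, h, c, -, -, he, hh, hc⟩ := exists_repr T hfA hfB k a b
  obtain ⟨m', n', e', h', c', -, -, he', hh', hc'⟩ := exists_repr T hfA hfB l a' b'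
  rw [← hf] at hc
  rw [← hg] at hc'
  have h1 := comm_ident2 T e h c e' h' c' f g hc hc'
  -- the two representations of the elements
  have f1 : f = ∑ q, iA (∑ p, c p q • e p) * iB (h q) := hc.trans (repr_left e h c)
  have f2 : f = ∑ p, iB (∑ q, c p q • h q) * iA (e p) := hc.trans (repr_right T e h c)
  have g1 : g = ∑ q, iA (∑ p, c' p q • e' p) * iB (h' q) := hc'.trans (repr_left e' h' c')
  have g2 : g = ∑ p, iB (∑ q, c' p q • h' q) * iA (e' p) := hc'.trans (repr_right T e' h' c')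
  have nf1 : ∑ q, N τA (∑ p, c p q • e p) = N τD f := by
    rw [← N_sum_tens T _ _ hh, ← f1]
  have ng1 : ∑ q, N τA (∑ p, c' p q • e' p) = N τD g := by
    rw [← N_sum_tens T _ _ hh', ← g1]
  have nf2 : ∑ p, N τB (∑ q, c p q • h q) = N τD f := by
    rw [← N_sum_tens T.symm _ _ he, ← f2]
  have ng2 : ∑ p, N τB (∑ q, c' p q • h' q) = N τD g := by
    rw [← N_sum_tens T.symm _ _ he', ← g2]
  have sf1 : ∑ q, S τA FA (∑ p, c p q • e p)
      = ∑ u ∈ FA, (N τD (cm f (iA u)) + N τD (cm (star f) (iA u))) := by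
    rw [← S_sum_tens T _ _ hh FA, ← f1]
  have sg1 : ∑ q, S τA FA (∑ p, c' p q • e' p)
      = ∑ u ∈ FA, (N τD (cm g (iA u)) + N τD (cm (star g) (iA u))) := by
    rw [← S_sum_tens T _ _ hh' FA, ← g1]
  have sf2 : ∑ p, S τB FB (∑ q, c p q • h q)
      = ∑ u ∈ FB, (N τD (cm f (iB u)) + N τD (cm (star f) (iB u))) := by
    rw [← S_sum_tens T.symm _ _ he FB, ← f2]
  have sg2 : ∑ p, S τB FB (∑ q, c' p q • h' q)
      = ∑ u ∈ FB, (N τD (cm g (iB u)) + N τD (cm (star g) (iB u))) := by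
    rw [← S_sum_tens T.symm _ _ he' FB, ← g2]
  -- the two bounds
  have b1 := bilin_bound T.trA hfA hα hΛ hA (τA ∘ₗ LinearMap.mulRight ℂ x)
    (phi_right_Prod T.trA hx) hη (isContr_right T.trB h h' hh hh' hy)
    (fun q => ∑ p, c p q • e p) (fun s => ∑ r, c' r s • e' r)
  have b2 := bilin_bound T.trB hfB hα hΛ hB (τB ∘ₗ LinearMap.mulRight ℂ y)
    (phi_right_Prod T.trB hy) hη (isContr_left T.trA e e' he he' hx)
    (fun p => ∑ q, c p q • h q) (fun r => ∑ s, c' r s • h' s)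
  rw [nf1, ng1, sf1, sg1] at b1
  rw [nf2, ng2, sf2, sg2] at b2
  have h2 : τD ((f * g - g * f) * (iA x * iB y)) =
      (∑ q, ∑ s, τB (h q * h' s * y) * (τA ∘ₗ LinearMap.mulRight ℂ x)
        ((∑ p, c p q • e p) * (∑ r, c' r s • e' r)
          - (∑ r, c' r s • e' r) * (∑ p, c p q • e p)))
      + ∑ p, ∑ r, τA (e' r * e p * x) * (τB ∘ₗ LinearMap.mulRight ℂ y)
        ((∑ q, c p q • h q) * (∑ s, c' r s • h' s)
          - (∑ s, c' r s • h' s) * (∑ q, c p q • h q)) := by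
    rw [h1, add_mul, map_add, Finset.sum_mul, Finset.sum_mul, map_sum, map_sum]
    congr 1
    · refine Finset.sum_congr rfl fun q _ => ?_
      rw [Finset.sum_mul, map_sum]
      refine Finset.sum_congr rfl fun s _ => ?_
      rw [prod_left_Prod T, mul_comm]
      rfl
    · refine Finset.sum_congr rfl fun p _ => ?_
      rw [Finset.sum_mul, map_sum]
      refine Finset.sum_congr rfl fun r _ => ?_
      rw [prod_right_Prod T, mul_comm]
      rfl
  rw [h2]
  refine (norm_add_le _ _).trans ((add_le_add b1 b2).trans (le_of_eq ?_))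
  unfold SS
  ring

end Pool.McT
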