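import Pool.Agent.McT.P.Multi
import Pool.Agent.McT.P.Prod

/-! The commutator of two elements tested against sandwich elements. -/

set_option autoImplicit false

namespace Pool.McT

variable {A B D : Type*} [CStarAlgebra A] [CStarAlgebra B] [CStarAlgebra D]
  {τA : A →ₗ[ℂ] ℂ} {τB : B →ₗ[ℂ] ℂ} {τD : D →ₗ[ℂ] ℂ} {iA : A →⋆ₐ[ℂ] D} {iB : B →⋆ₐ[ℂ] D}

/-- `z = ∑ α_l X_l β_l` with `X_l` in the unit ball of `A`, a row contraction `α` and a column
contraction `β` of elements of `B`. -/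
def Sand (iA : A →⋆ₐ[ℂ] D) (iB : B →⋆ₐ[ℂ] D) (z : D) : Prop :=
  ∃ (R : ℕ) (X : Fin R → A) (α β : Fin R → B), (∀ l, ‖X l‖ ≤ 1) ∧
    ‖∑ l, α l * star (α l)‖ ≤ 1 ∧ ‖∑ l, star (β l) * β l‖ ≤ 1 ∧
    z = ∑ l, iB (α l) * iA (X l) * iB (β l)

private theorem phi_right_ProdZ {τ : A →ₗ[ℂ] ℂ} (hτ : IsTr τ) {x : A} (hx : ‖x‖ ≤ 1)
    (a b : A) : ‖(τ ∘ₗ LinearMap.mulRight ℂ x) (a * b)‖ ^ 2 ≤ N τ a * N τ b := by
  have h1 : (τ ∘ₗ LinearMap.mulRight ℂ x) (a * b) = τ ((x * a) * b) := by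
    show τ (a * b * x) = τ ((x * a) * b)
    rw [hτ.comm, mul_assoc]
  rw [h1]
  have h2 := tau_mul_sq_le hτ (x * a) b
  have h3 := N_mul_le_left hτ x a
  have h4 : ‖x‖ ^ 2 ≤ 1 := pow_le_one₀ (norm_nonneg x) hx
  have h5 := N_nonneg hτ a
  have h6 := N_nonneg hτ b
  have h7 : N τ (x * a) ≤ N τ a := by nlinarith
  exact h2.trans (mul_le_mul_of_nonneg_right h7 h6)

private theorem sand_tau_ProdZ (T : Tens τA τB τD iA iB) {R : ℕ} (X : Fin R → A)
    (α β : Fin R → B) (a : A) (b : B) :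
    τD (iA a * iB b * ∑ l, iB (α l) * iA (X l) * iB (β l)) =
      ∑ l, τA (a * X l) * τB (b * (α l * β l)) := by
  rw [Finset.mul_sum, map_sum]
  refine Finset.sum_congr rfl fun l _ => ?_
  have e1 : iA a * iB b * (iB (α l) * iA (X l) * iB (β l)) =
      iA (a * X l) * iB (b * (α l * β l)) := by
    have e2 : iB (b * (α l * β l)) = iB (b * α l) * iB (β l) := by
      rw [← map_mul, mul_assoc]
    rw [e2, map_mul iA a (X l), mul_assoc (iA a) (iA (X l)), ← mul_assoc (iA (X l)),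
      T.comm (X l) (b * α l), map_mul iB b (α l)]
    noncomm_ring
  rw [e1, T.tau]

theorem half_ProdZ (T : Tens τA τB τD iA iB) (hfA : ∀ x : A, N τA x = 0 → x = 0)
    (hfB : ∀ x : B, N τB x = 0 → x = 0) {FA : Finset A} {α Λ : ℝ}
    (hα : 0 ≤ α) (hΛ : 0 ≤ Λ) (hA : AD τA FA α Λ) {m n : ℕ} (f : Fin m → B) (f' : Fin n → B)
    (ho : ∀ p q, τB (star (f p) * f q) = if p = q then 1 else 0)
    (ho' : ∀ p q, τB (star (f' p) * f' q) = if p = q then 1 else 0)
    (F : Fin m → A) (F' : Fin n → A) {z : D} (hz : Sand iA iB z) {η : ℝ} (hη : 0 < η) :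
    ‖∑ q, ∑ s, τD (iA (F q * F' s - F' s * F q) * iB (f q * f' s) * z)‖ ≤
      2 * (η + α / η) * (∑ i, N τA (F i) + ∑ j, N τA (F' j))
        + 2 * (Λ / η) * (∑ i, S τA FA (F i) + ∑ j, S τA FA (F' j)) := by
  obtain ⟨R, X, al, be, hX, hal, hbe, rfl⟩ := hz
  obtain ⟨κ, _, _, l, W, V, hW, hV, hWV⟩ := exists_factor T.trB hfB f f' ho ho' al be hal hbe
  have b1 := multi_bound T.trA hfA hα hΛ hA
    (fun r => τA ∘ₗ LinearMap.mulRight ℂ (X (l r)))
    (fun r => phi_right_ProdZ T.trA (hX (l r))) hη hW hV F F'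
  refine le_trans (le_of_eq (congrArg norm ?_)) b1
  have h1 : ∀ q s, τD (iA (F q * F' s - F' s * F q) * iB (f q * f' s) *
      ∑ l, iB (al l) * iA (X l) * iB (be l)) =
      ∑ r, W r q * V r s * τA ((F q * F' s - F' s * F q) * X (l r)) := by
    intro q s
    rw [sand_tau_ProdZ T X al be]
    have h2 : ∀ j, τA ((F q * F' s - F' s * F q) * X j) * τB (f q * f' s * (al j * be j)) =
        ∑ r ∈ Finset.univ.filter (fun r => l r = j),
          W r q * V r s * τA ((F q * F' s - F' s * F q) * X (l r)) := by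
      intro j
      rw [hWV, Finset.mul_sum]
      refine Finset.sum_congr rfl fun r hr => ?_
      rw [(Finset.mem_filter.mp hr).2, mul_comm]
    simp only [h2]
    exact Finset.sum_fiberwise Finset.univ l _
  simp only [h1]
  have h3 : ∀ r, (τA ∘ₗ LinearMap.mulRight ℂ (X (l r))) ((∑ i, W r i • F i) *
      (∑ j, V r j • F' j) - (∑ j, V r j • F' j) * (∑ i, W r i • F i)) =
      ∑ q, ∑ s, W r q * V r s * τA ((F q * F' s - F' s * F q) * X (l r)) := by
    intro r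
    have h4 : (∑ i, W r i • F i) * (∑ j, V r j • F' j) -
        (∑ j, V r j • F' j) * (∑ i, W r i • F i) =
        ∑ q, ∑ s, (W r q * V r s) • (F q * F' s - F' s * F q) := by
      rw [Finset.sum_mul_sum, Finset.sum_mul_sum, Finset.sum_comm (γ := Fin n),
        ← Finset.sum_sub_distrib]
      refine Finset.sum_congr rfl fun q _ => ?_
      rw [← Finset.sum_sub_distrib]
      refine Finset.sum_congr rfl fun s _ => ?_
      rw [smul_mul_smul_comm, smul_mul_smul_comm, mul_comm (V r s), smul_sub]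
    rw [h4, map_sum]
    refine Finset.sum_congr rfl fun q _ => ?_
    rw [map_sum]
    refine Finset.sum_congr rfl fun s _ => ?_
    rw [map_smul, smul_eq_mul]
    rfl
  simp only [h3]
  rw [Finset.sum_comm]
  have h5 : ∀ q, ∑ s, ∑ r, W r q * V r s * τA ((F q * F' s - F' s * F q) * X (l r)) =
      ∑ r, ∑ s, W r q * V r s * τA ((F q * F' s - F' s * F q) * X (l r)) :=
    fun q => Finset.sum_comm
  rw [Finset.sum_comm]
  simp only [h5]
  exact Finset.sum_comm

/-- As `prod_bound_alg` (same use of `exists_repr`, `comm_ident2`, `repr_left`, `repr_right`).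
First term, with `z = ∑ iB α_l iA X_l iB β_l`:
`τD (iA a * iB (f_q f'_s) * z) = ∑_l τA (a * X_l) * τB (f_q f'_s (α_l β_l))`; by
`exists_factor` (for `τB`, `f`, `f'`) the sum over `q, s` becomes
`∑_r φ_r ([∑_q W_rq A_q, ∑_s V_rs A'_s])`, `φ_r = τA (· X_(l r))`: `multi_bound`. Second term,
with `z = ∑ iA α_l iB Y_l iA β_l`: `τD (iB b * iA (e'_r e_p) * z) =
∑_l τB (b * Y_l) * τA (e'_r e_p (α_l β_l))`, `exists_factor` for `τA`, `e'`, `e` (in this
order), so `W` goes with the `B'_r` and `V` with the `B_p`: the commutator changes sign. -/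
theorem sand_bound_alg (T : Tens τA τB τD iA iB) (hfA : ∀ x : A, N τA x = 0 → x = 0)
    (hfB : ∀ x : B, N τB x = 0 → x = 0) {FA : Finset A} {FB : Finset B} {α Λ : ℝ}
    (hα : 0 ≤ α) (hΛ : 0 ≤ Λ) (hA : AD τA FA α Λ) (hB : AD τB FB α Λ) {k l : ℕ}
    (a : Fin k → A) (b : Fin k → B) (a' : Fin l → A) (b' : Fin l → B) {z : D}
    (hz : Sand iA iB z) (hz' : Sand iB iA z) {η : ℝ} (hη : 0 < η) (f g : D)
    (hf : f = ∑ i, iA (a i) * iB (b i)) (hg : g = ∑ i, iA (a' i) * iB (b' i)) :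
    ‖τD ((f * g - g * f) * z)‖ ≤ 4 * (η + α / η) * (N τD f + N τD g)
      + 2 * (Λ / η) * (SS τD iA iB FA FB f + SS τD iA iB FA FB g) := by
  obtain ⟨m, n, e, h, c, -, -, he, hh, hc⟩ := exists_repr T hfA hfB k a b
  obtain ⟨m', n', e', h', c', -, -, he', hh', hc'⟩ := exists_repr T hfA hfB l a' b'
  rw [← hf] at hc
  rw [← hg] at hc'
  have h1 := comm_ident2 T e h c e' h' c' f g hc hc'
  -- the two representations of the elements
  have f1 : f = ∑ q, iA (∑ p, c p q • e p) * iB (h q) := hc.trans (repr_left e h c)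
  have f2 : f = ∑ p, iB (∑ q, c p q • h q) * iA (e p) := hc.trans (repr_right T e h c)
  have g1 : g = ∑ q, iA (∑ p, c' p q • e' p) * iB (h' q) := hc'.trans (repr_left e' h' c')
  have g2 : g = ∑ p, iB (∑ q, c' p q • h' q) * iA (e' p) := hc'.trans (repr_right T e' h' c')
  have nf1 : ∑ q, N τA (∑ p, c p q • e p) = N τD f := by
    rw [← N_sum_tens T _ _ hh, ← f1]
  have ng1 : ∑ q, N τA (∑ p, c' p q • e' p) = N τD g := by
    rw [← N_sum_tens T _ _ hh', ← g1]
  have nf2 : ∑ p, N τB (∑ q, c p q • h q) = N τD f := by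
    rw [← N_sum_tens T.symm _ _ he, ← f2]
  have ng2 : ∑ p, N τB (∑ q, c' p q • h' q) = N τD g := by
    rw [← N_sum_tens T.symm _ _ he', ← g2]
  have sf1 : ∑ q, S τA FA (∑ p, c p q • e p)
      = ∑ u ∈ FA, (N τD (cm f (iA u)) + N τD (cm (star f) (iA u))) := by
    rw [← S_sum_tens T _ _ hh FA, ← f1]
  have sg1 : ∑ q, S τA FA (∑ p, c' p q • e' p)
      = ∑ u ∈ FA, (N τD (cm g (iA u)) + N τD (cm (star g) (iA u))) := by
    rw [← S_sum_tens T _ _ hh' FA, ← g1]
  have sf2 : ∑ p, S τB FB (∑ q, c p q • h q)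
      = ∑ u ∈ FB, (N τD (cm f (iB u)) + N τD (cm (star f) (iB u))) := by
    rw [← S_sum_tens T.symm _ _ he FB, ← f2]
  have sg2 : ∑ p, S τB FB (∑ q, c' p q • h' q)
      = ∑ u ∈ FB, (N τD (cm g (iB u)) + N τD (cm (star g) (iB u))) := by
    rw [← S_sum_tens T.symm _ _ he' FB, ← g2]
  -- the two bounds
  have b1 := half_ProdZ T hfA hfB hα hΛ hA h h' hh hh'
    (fun q => ∑ p, c p q • e p) (fun s => ∑ r, c' r s • e' r) hz hη
  have b2 := half_ProdZ T.symm hfB hfA hα hΛ hB e' e he' he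
    (fun r => ∑ s, c' r s • h' s) (fun p => ∑ q, c p q • h q) hz' hη
  rw [nf1, ng1, sf1, sg1] at b1
  rw [nf2, ng2, sf2, sg2] at b2
  have h2 : τD ((f * g - g * f) * z) =
      (∑ q, ∑ s, τD (iA ((∑ p, c p q • e p) * (∑ r, c' r s • e' r)
          - (∑ r, c' r s • e' r) * (∑ p, c p q • e p)) * iB (h q * h' s) * z))
      - ∑ r, ∑ p, τD (iB ((∑ s, c' r s • h' s) * (∑ q, c p q • h q)
          - (∑ q, c p q • h q) * (∑ s, c' r s • h' s)) * iA (e' r * e p) * z) := by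
    rw [h1, add_mul, map_add, Finset.sum_mul, Finset.sum_mul, map_sum, map_sum,
      sub_eq_add_neg]
    congr 1
    · refine Finset.sum_congr rfl fun q _ => ?_
      rw [Finset.sum_mul, map_sum]
    · rw [Finset.sum_comm, ← Finset.sum_neg_distrib]
      refine Finset.sum_congr rfl fun p _ => ?_
      rw [Finset.sum_mul, map_sum, ← Finset.sum_neg_distrib]
      refine Finset.sum_congr rfl fun r _ => ?_
      rw [← map_neg, ← neg_mul, ← neg_mul, ← map_neg, neg_sub]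
  rw [h2]
  refine (norm_sub_le _ _).trans ((add_le_add b1 b2).trans (le_of_eq ?_))
  unfold SS
  ring

end Pool.McT
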